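import Pool.Agent.G4.K.Cf
import Pool.Agent.TG.Rm

/-!
# G4 K Cb: the Schwarz lemma for the zeros

`m`, `Q` from `cf_alg`.  For `Q m x ≠ 0` and `k ≤ m`: `q k x = Q (m - k) x / Q m x = ± e_k (g x i, i ∈ J)`, `‖q k x‖ ≤ 2 ^ m S ^ k`, and `‖q k x‖ ≤ 2 ^ m (C ‖x‖ ^ T) ^ k` near `0`.  By `TG.riemann_one` `q k` extends holomorphically to the ball (the extension is
analytic, with the same bounds, by density).  One variable Schwarz lemma on the lines `t ↦ t x` (`‖x‖ < δ`, `t` in the disc of radius `δ / ‖x‖`): `‖q k x‖ ≤ 2 ^ m S ^ k (‖x‖ / δ) ^ (k T)`.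
The `g x i` are the zeros of the monic polynomial with the coefficients `q k x`: `‖g x i‖ ≤ (m + 1) 2 ^ m S (‖x‖ / δ) ^ T`.
-/

set_option autoImplicit false

open Topology Filter Metric

namespace Pool.Agent.G4.K

open Pool.Agent.AD (Vd)

/-- coefficients of a product of linear factors -/
private theorem cf_coef {ι : Type} (J : Finset ι) (γ : ι → ℂ) {m : ℕ} (hJ : J.card = m) {q : ℕ → ℂ} {a : ℂ} (ha : a ≠ 0)
    (h : ∀ t : ℂ, ∑ b ∈ Finset.range (m + 1), q b * t ^ b = a * ∏ i ∈ J, (t - γ i)) {B : ℝ} (hB : ∀ i ∈ J, ‖γ i‖ ≤ B) (b : ℕ) (hb : b ≤ m) :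
    ‖q b / a‖ ≤ 2 ^ m * B ^ (m - b) := by
  classical
  set p : Polynomial ℂ := ∏ i ∈ J, (Polynomial.X - Polynomial.C (γ i)) with hp
  have hmon : p.Monic := Polynomial.monic_prod_of_monic _ _ fun i _ => Polynomial.monic_X_sub_C _
  have hdeg : p.natDegree = m := by
    rw [hp, Polynomial.natDegree_prod_of_monic _ _ fun i _ => Polynomial.monic_X_sub_C _]
    simp [hJ]
  have hspl : p.Splits := Polynomial.Splits.prod fun i _ => Polynomial.Splits.X_sub_C _
  have hroots : ∀ z ∈ (Polynomial.map (RingHom.id ℂ) p).roots, ‖z‖ ≤ B := by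
    intro z hz
    rw [Polynomial.map_id, Polynomial.mem_roots hmon.ne_zero, Polynomial.IsRoot.def, hp, Polynomial.eval_prod, Finset.prod_eq_zero_iff] at hz
    obtain ⟨i, hi, h0⟩ := hz
    simp only [Polynomial.eval_sub, Polynomial.eval_X, Polynomial.eval_C] at h0
    rw [sub_eq_zero.mp h0]
    exact hB i hi
  have heq : (∑ b ∈ Finset.range (m + 1), Polynomial.C (q b / a) * Polynomial.X ^ b) = p := by
    refine Polynomial.funext fun t => ?_
    rw [Polynomial.eval_finsetSum, hp, Polynomial.eval_prod]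
    simp only [Polynomial.eval_mul, Polynomial.eval_C, Polynomial.eval_pow, Polynomial.eval_X, Polynomial.eval_sub]
    have h1 := h t
    have h2 : ∑ b ∈ Finset.range (m + 1), q b / a * t ^ b = (∑ b ∈ Finset.range (m + 1), q b * t ^ b) / a := by
      rw [Finset.sum_div]
      exact Finset.sum_congr rfl fun b _ => by ring
    rw [h2, h1]
    field_simp
  have hc : p.coeff b = q b / a := by
    rw [← heq, Polynomial.finsetSum_coeff]
    simp only [Polynomial.coeff_C_mul_X_pow]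
    rw [Finset.sum_ite_eq]
    simp [Nat.lt_succ_of_le hb]
  have hspl' : (Polynomial.map (RingHom.id ℂ) p).Splits := by
    rw [Polynomial.map_id]
    exact hspl
  have h3 := Polynomial.coeff_le_of_roots_le (f := RingHom.id ℂ) (B := B) b hmon hspl' hroots
  rw [Polynomial.map_id, hc, hdeg] at h3
  by_cases hB0 : 0 ≤ B
  · refine h3.trans ?_
    have h4 : (m.choose b : ℝ) ≤ 2 ^ m := by
      exact_mod_cast Nat.choose_le_two_pow m b
    rw [mul_comm]
    exact mul_le_mul_of_nonneg_right h4 (pow_nonneg hB0 _)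
  · have hJ0 : J = ∅ := by
      refine Finset.eq_empty_of_forall_notMem fun i hi => hB0 ((norm_nonneg _).trans (hB i hi))
    have hm0 : m = 0 := by rw [← hJ, hJ0, Finset.card_empty]
    subst hm0
    have hb0 : b = 0 := by omega
    subst hb0
    simpa using h3

/-- zeros of a monic polynomial with small coefficients -/
private theorem cf_root {m : ℕ} {γ : ℂ} {q : ℕ → ℂ} {K ρ : ℝ} (hK : 1 ≤ K) (hρ : 0 ≤ ρ) (hq : ∀ b, b < m → ‖q b‖ ≤ K * ρ ^ (m - b))
    (h : γ ^ m = - ∑ b ∈ Finset.range m, q b * γ ^ b) (hm : 0 < m) : ‖γ‖ ≤ (m + 1) * K * ρ := by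
  by_contra hcon
  push Not at hcon
  have hm1 : (1 : ℝ) ≤ (m : ℝ) + 1 := by
    have : (0 : ℝ) ≤ (m : ℝ) := Nat.cast_nonneg _
    linarith
  have hρle : ρ ≤ ‖γ‖ := by
    have h1 : ρ ≤ (m + 1) * K * ρ := by
      have h2 : 1 ≤ ((m : ℝ) + 1) * K := by nlinarith
      nlinarith
    linarith
  have hγ : 0 < ‖γ‖ := by
    have : 0 ≤ (m + 1) * K * ρ := by positivity
    linarith
  have h1 : ‖γ‖ ^ m ≤ ∑ b ∈ Finset.range m, K * ρ * ‖γ‖ ^ (m - 1) := by
    rw [← norm_pow, h, norm_neg]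
    refine (norm_sum_le _ _).trans (Finset.sum_le_sum fun b hb => ?_)
    rw [Finset.mem_range] at hb
    rw [norm_mul, norm_pow]
    have h2 : ρ ^ (m - b) = ρ * ρ ^ (m - 1 - b) := by
      rw [← pow_succ']
      congr 1
      omega
    have h3 : ρ ^ (m - 1 - b) * ‖γ‖ ^ b ≤ ‖γ‖ ^ (m - 1) := by
      calc ρ ^ (m - 1 - b) * ‖γ‖ ^ b ≤ ‖γ‖ ^ (m - 1 - b) * ‖γ‖ ^ b :=
            mul_le_mul_of_nonneg_right (pow_le_pow_left₀ hρ hρle _) (by positivity)
        _ = ‖γ‖ ^ (m - 1) := by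
            rw [← pow_add]
            congr 1
            omega
    calc ‖q b‖ * ‖γ‖ ^ b ≤ K * ρ ^ (m - b) * ‖γ‖ ^ b := mul_le_mul_of_nonneg_right (hq b hb) (by positivity)
      _ = K * ρ * (ρ ^ (m - 1 - b) * ‖γ‖ ^ b) := by rw [h2]; ring
      _ ≤ K * ρ * ‖γ‖ ^ (m - 1) := mul_le_mul_of_nonneg_left h3 (by positivity)
  rw [Finset.sum_const, Finset.card_range, nsmul_eq_mul] at h1
  have h4 : ‖γ‖ ^ m = ‖γ‖ * ‖γ‖ ^ (m - 1) := by
    rw [← pow_succ']
    congr 1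
    omega
  rw [h4] at h1
  have h5 : 0 < ‖γ‖ ^ (m - 1) := by positivity
  have h6 : ‖γ‖ ≤ m * (K * ρ) := by
    have : ‖γ‖ * ‖γ‖ ^ (m - 1) ≤ (m * (K * ρ)) * ‖γ‖ ^ (m - 1) := by linarith
    exact le_of_mul_le_mul_right this h5
  have h7 : (m : ℝ) * (K * ρ) ≤ (m + 1) * K * ρ := by
    have : 0 ≤ K * ρ := by positivity
    nlinarith
  linarith

/-- one variable: a quotient, bounded, with a zero of order `n` at `0` -/
private theorem cf_line {R : ℝ} (hR : 2 < R) {h p : ℂ → ℂ} (hh : ∀ z ∈ ball (0 : ℂ) R, AnalyticAt ℂ h z) (hp : ∀ z ∈ ball (0 : ℂ) R, AnalyticAt ℂ p z)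
    (h1 : h 1 ≠ 0) {B B' η : ℝ} (hη : 0 < η) {n : ℕ} (hB : ∀ z ∈ ball (0 : ℂ) R, h z ≠ 0 → ‖p z / h z‖ ≤ B)
    (hB' : ∀ z ∈ ball (0 : ℂ) η, z ∈ ball (0 : ℂ) R → h z ≠ 0 → ‖p z / h z‖ ≤ B' * ‖z‖ ^ n) : ‖p 1 / h 1‖ ≤ B * (1 / 2) ^ n := by
  have h1R : (1 : ℂ) ∈ ball (0 : ℂ) R := by
    rw [mem_ball_zero_iff, norm_one]
    linarith
  have hB0 : 0 ≤ B := (norm_nonneg _).trans (hB 1 h1R h1)
  obtain ⟨G, hG, hGf⟩ := Pool.Agent.TG.rem_disc (U := ball (0 : ℂ) R) isOpen_ball (convex_ball _ _).isPreconnected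
    (h := fun z => z * h z) (f := fun z => p z / h z / z ^ n) (fun z hz => analyticAt_id.mul (hh z hz)) h1R (by simpa using h1)
    (fun z hz h0 => by
      have hz0 : z ≠ 0 := left_ne_zero_of_mul h0
      have hh0 : h z ≠ 0 := right_ne_zero_of_mul h0
      exact ((hp z hz).differentiableAt.div (hh z hz).differentiableAt hh0).div (differentiableAt_id.pow n) (pow_ne_zero _ hz0))
    (M := max B' (B / η ^ n)) (fun z hz h0 => by
      have hz0 : z ≠ 0 := left_ne_zero_of_mul h0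
      have hh0 : h z ≠ 0 := right_ne_zero_of_mul h0
      have hzn : 0 < ‖z‖ ^ n := by
        have := norm_pos_iff.mpr hz0
        positivity
      rw [norm_div, norm_pow]
      by_cases hzη : z ∈ ball (0 : ℂ) η
      · refine le_trans ?_ (le_max_left _ _)
        rw [div_le_iff₀ hzn]
        exact hB' z hzη hz hh0
      · refine le_trans ?_ (le_max_right _ _)
        rw [mem_ball_zero_iff, not_lt] at hzη
        exact div_le_div₀ hB0 (hB z hz hh0) (by positivity) (pow_le_pow_left₀ hη.le hzη n))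
  have hfreq : ∀ z ∈ ball (0 : ℂ) R, ∃ᶠ w in 𝓝 z, w ∈ ball (0 : ℂ) R ∧ w * h w ≠ 0 := by
    intro z hz
    by_contra hcon
    rw [not_frequently] at hcon
    have h2 : ∀ᶠ w in 𝓝 z, w * h w = 0 := by
      filter_upwards [hcon, isOpen_ball.mem_nhds hz] with w hw hwR
      by_contra h3
      exact hw ⟨hwR, h3⟩
    have h4 := AnalyticOnNhd.eqOn_zero_of_preconnected_of_eventuallyEq_zero (U := ball (0 : ℂ) R) (f := fun w => w * h w)
      (fun w hw => analyticAt_id.mul (hh w hw)) (convex_ball _ _).isPreconnected hz h2 h1R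
    simp only [one_mul, Pi.zero_apply] at h4
    exact h1 h4
  have hcl : ∀ z ∈ ball (0 : ℂ) R, ‖G z‖ * ‖z‖ ^ n ≤ B := by
    intro z hz
    have hc : ContinuousAt G z := (hG.differentiableAt (isOpen_ball.mem_nhds hz)).continuousAt
    have hc2 : Tendsto (fun w : ℂ => ‖G w‖ * ‖w‖ ^ n) (𝓝 z) (𝓝 (‖G z‖ * ‖z‖ ^ n)) :=
      hc.norm.mul (continuous_norm.continuousAt.pow n)
    refine le_of_tendsto_of_frequently hc2 ((hfreq z hz).mono fun w hw => ?_)
    have hz0 : w ≠ 0 := left_ne_zero_of_mul hw.2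
    have hh0 : h w ≠ 0 := right_ne_zero_of_mul hw.2
    have hzn : 0 < ‖w‖ ^ n := by
      have := norm_pos_iff.mpr hz0
      positivity
    rw [hGf w hw.1 hw.2, norm_div, norm_pow, div_mul_cancel₀ _ hzn.ne']
    exact hB w hw.1 hh0
  have hsub : closedBall (0 : ℂ) 2 ⊆ ball (0 : ℂ) R := closedBall_subset_ball hR
  have hmax : ‖G 1‖ ≤ B * (1 / 2) ^ n := by
    refine Complex.norm_le_of_forall_mem_frontier_norm_le (U := ball (0 : ℂ) 2) isBounded_ball ?_ (fun z hz => ?_) ?_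
    · refine DifferentiableOn.diffContOnCl ?_
      rw [closure_ball _ (by norm_num)]
      exact hG.mono hsub
    · rw [frontier_ball _ (by norm_num), mem_sphere_zero_iff_norm] at hz
      have hz2 : z ∈ ball (0 : ℂ) R := hsub (by rw [mem_closedBall_zero_iff, hz])
      have h5 := hcl z hz2
      rw [hz] at h5
      have h6 : (0 : ℝ) < 2 ^ n := by positivity
      rw [one_div, inv_pow, ← div_eq_mul_inv, le_div_iff₀ h6]
      exact h5
    · rw [closure_ball _ (by norm_num), mem_closedBall_zero_iff, norm_one]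
      norm_num
  have h7 : G 1 = p 1 / h 1 := by
    rw [hGf 1 h1R (by simpa using h1)]
    simp
  rw [← h7]
  exact hmax

theorem cf_bd {E : Type} [NormedAddCommGroup E] [NormedSpace ℂ E] [FiniteDimensional ℂ E] {ι : Type} [Fintype ι] {δ : ℝ} (hδ : 0 < δ) {A g : E → ι → ℂ}
    (hP : ∀ s t : ℂ, ∀ x ∈ ball (0 : E) δ, AnalyticAt ℂ (fun x => ∏ i, (A x i + s * (t - g x i))) x) {S : ℝ} (hS : ∀ x ∈ ball (0 : E) δ, ∀ i, A x i = 0 → ‖g x i‖ ≤ S)
    {T : ℕ} {C : ℝ} (hT : ∀ᶠ x in 𝓝 (0 : E), ∀ i, A x i = 0 → ‖g x i‖ ≤ C * ‖x‖ ^ T) :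
    ∃ c : E → ℂ, (∀ x ∈ ball (0 : E) δ, AnalyticAt ℂ c x) ∧ (∃ x ∈ ball (0 : E) δ, c x ≠ 0) ∧
      ∀ x ∈ ball (0 : E) (δ / 2), c x ≠ 0 → ∀ i, A x i = 0 → ‖g x i‖ ≤ S * ((Fintype.card ι + 1) * 2 ^ Fintype.card ι * (1 / 2) ^ T) := by
  classical
  obtain ⟨m, Q, hm, hQan, hQne, hQ⟩ := cf_alg hδ hP
  refine ⟨Q m, hQan m, hQne, fun x hx hx0 i hi => ?_⟩
  have hxδ : x ∈ ball (0 : E) δ := ball_subset_ball (by linarith) hx
  rw [mem_ball_zero_iff] at hx
  obtain ⟨J, hJ, hJc, hJp⟩ := hQ x hxδ hx0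
  have hiJ : i ∈ J := (hJ i).mpr hi
  have hmpos : 0 < m := by
    rw [← hJc]
    exact Finset.card_pos.mpr ⟨i, hiJ⟩
  have hS0 : 0 ≤ S := (norm_nonneg _).trans (hS x hxδ i hi)
  -- general bound of the quotients
  have hquo : ∀ y ∈ ball (0 : E) δ, Q m y ≠ 0 → ∀ B : ℝ, (∀ j, A y j = 0 → ‖g y j‖ ≤ B) → ∀ b, b ≤ m → ‖Q b y / Q m y‖ ≤ 2 ^ m * B ^ (m - b) := by
    intro y hy hy0 B hB b hb
    obtain ⟨J', hJ', hJc', hJp'⟩ := hQ y hy hy0
    exact cf_coef J' (g y) hJc' hy0 (q := fun b => Q b y) hJp' (fun j hj => hB j ((hJ' j).mp hj)) b hb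
  -- the neighbourhood of `0`
  obtain ⟨ε, hε, hεT⟩ := Metric.eventually_nhds_iff_ball.mp hT
  have hcoef : ∀ b, b < m → ‖Q b x / Q m x‖ ≤ 2 ^ m * (S * (1 / 2) ^ T) ^ (m - b) := by
    intro b hb
    set R : ℝ := 2 + (δ - 2 * ‖x‖) / (‖x‖ + 1) with hR
    have hx1 : 0 < ‖x‖ + 1 := by positivity
    have hRpos : 2 < R := by
      have : 0 < (δ - 2 * ‖x‖) / (‖x‖ + 1) := div_pos (by linarith) hx1
      linarith
    have hRx : R * ‖x‖ ≤ δ := by
      have h1 : (δ - 2 * ‖x‖) / (‖x‖ + 1) * ‖x‖ ≤ δ - 2 * ‖x‖ := by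
        rw [div_mul_eq_mul_div, div_le_iff₀ hx1]
        have : 0 ≤ δ - 2 * ‖x‖ := by linarith
        nlinarith [norm_nonneg x]
      rw [hR, add_mul]
      linarith
    have hmem : ∀ z ∈ ball (0 : ℂ) R, z • x ∈ ball (0 : E) δ := by
      intro z hz
      rw [mem_ball_zero_iff] at hz ⊢
      rw [norm_smul]
      by_cases hx0' : ‖x‖ = 0
      · rw [hx0', mul_zero]
        exact hδ
      · have : 0 < ‖x‖ := lt_of_le_of_ne (norm_nonneg _) (Ne.symm hx0')
        calc ‖z‖ * ‖x‖ < R * ‖x‖ := mul_lt_mul_of_pos_right hz this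
          _ ≤ δ := hRx
    have hlin : ∀ z : ℂ, AnalyticAt ℂ (fun z : ℂ => z • x) z := fun z => analyticAt_id.smul analyticAt_const
    have key := cf_line hRpos (h := fun z : ℂ => Q m (z • x)) (p := fun z : ℂ => Q b (z • x))
      (fun z hz => AnalyticAt.fun_comp (hQan m _ (hmem z hz)) (hlin z)) (fun z hz => AnalyticAt.fun_comp (hQan b _ (hmem z hz)) (hlin z))
      (by simpa using hx0) (B := 2 ^ m * S ^ (m - b)) (B' := 2 ^ m * (C * ‖x‖ ^ T) ^ (m - b)) (η := ε / (‖x‖ + 1)) (div_pos hε hx1) (n := T * (m - b))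
      (fun z hz h0 => hquo _ (hmem z hz) h0 S (fun j hj => hS _ (hmem z hz) j hj) b hb.le)
      (fun z hz hzR h0 => by
        have h2 : z • x ∈ ball (0 : E) ε := by
          rw [mem_ball_zero_iff] at hz ⊢
          rw [norm_smul]
          rw [lt_div_iff₀ hx1] at hz
          nlinarith [norm_nonneg z, norm_nonneg x]
        have h3 := hquo _ (hmem z hzR) h0 (C * ‖z • x‖ ^ T) (fun j hj => hεT _ h2 j hj) b hb.le
        refine h3.trans (le_of_eq ?_)
        rw [norm_smul, mul_pow, mul_assoc, pow_mul]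
        rw [← mul_pow]
        congr 1
        ring)
    simp only [one_smul] at key
    refine key.trans (le_of_eq ?_)
    rw [mul_pow, pow_mul]
    ring
  have hρ0 : 0 ≤ S * (1 / 2) ^ T := by positivity
  have hroot : (g x i) ^ m = - ∑ b ∈ Finset.range m, (Q b x / Q m x) * (g x i) ^ b := by
    have h1 := hJp (g x i)
    rw [Finset.prod_eq_zero hiJ (sub_self _), mul_zero, Finset.sum_range_succ] at h1
    have h2 : ∑ b ∈ Finset.range m, Q b x / Q m x * g x i ^ b = (∑ b ∈ Finset.range m, Q b x * g x i ^ b) / Q m x := by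
      rw [Finset.sum_div]
      exact Finset.sum_congr rfl fun b _ => by ring
    rw [h2, eq_comm, neg_eq_iff_eq_neg, div_eq_iff hx0, eq_comm]
    rw [← eq_neg_iff_add_eq_zero] at h1
    rw [h1]
    ring
  have hfin := cf_root (m := m) (γ := g x i) (q := fun b => Q b x / Q m x) (K := 2 ^ m) (ρ := S * (1 / 2) ^ T) (one_le_pow₀ (by norm_num)) hρ0
    (fun b hb => hcoef b hb) hroot hmpos
  refine hfin.trans ?_
  have hmc : (m : ℝ) ≤ Fintype.card ι := by exact_mod_cast hm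
  have h2m : (2 : ℝ) ^ m ≤ 2 ^ Fintype.card ι := pow_le_pow_right₀ (by norm_num) hm
  have h8 : ((m : ℝ) + 1) * 2 ^ m ≤ (Fintype.card ι + 1) * 2 ^ Fintype.card ι :=
    mul_le_mul (by linarith) h2m (by positivity) (by positivity)
  calc ((m : ℝ) + 1) * 2 ^ m * (S * (1 / 2) ^ T) ≤ (Fintype.card ι + 1) * 2 ^ Fintype.card ι * (S * (1 / 2) ^ T) :=
        mul_le_mul_of_nonneg_right h8 hρ0
    _ = S * ((Fintype.card ι + 1) * 2 ^ Fintype.card ι * (1 / 2) ^ T) := by ring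

end Pool.Agent.G4.K
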