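import Pool.Agent.G4.K.Defs

/-!
# G4 K Cf: the coefficients of `∏ i, (A x i + s (t - g x i))`

A polynomial in `s`, `t` of degrees `≤ n` (`n = card ι`); its coefficients are fixed linear combinations of its values at `s, t ∈ {0, …, n}` (Lagrange interpolation), so analytic in `x`.  Let `m` be the minimum over `x ∈ ball 0 δ` of the number of the
`i` with `A x i = 0`, and `Q b x` the coefficient of `s ^ m t ^ b`.  If exactly `m` of the `A x i` are `0`, the coefficient of `s ^ m` is `(∏_{A x i ≠ 0} A x i) ∏_{A x i = 0} (t - g x i)`; if more than `m` are `0`, it is `0`.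
-/

set_option autoImplicit false

open Topology Filter Metric

namespace Pool.Agent.G4.K

open Pool.Agent.AD (Vd)

open Polynomial in
/-- the coefficient of `s ^ a` -/
private noncomputable def RR {ι : Type} [Fintype ι] [DecidableEq ι] (A g : ι → ℂ) (a : ℕ) : Polynomial ℂ :=
  ∑ T ∈ Finset.powersetCard a Finset.univ, (∏ i ∈ T, (X - C (g i))) * C (∏ i ∈ Finset.univ \ T, A i)

private theorem RR_eval {ι : Type} [Fintype ι] [DecidableEq ι] (A g : ι → ℂ) (a : ℕ) (t : ℂ) :
    (RR A g a).eval t = ∑ T ∈ Finset.powersetCard a Finset.univ, (∏ i ∈ T, (t - g i)) * ∏ i ∈ Finset.univ \ T, A i := by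
  unfold RR
  rw [Polynomial.eval_finsetSum]
  refine Finset.sum_congr rfl fun T _ => ?_
  rw [Polynomial.eval_mul, Polynomial.eval_C, Polynomial.eval_prod]
  congr 1
  exact Finset.prod_congr rfl fun i _ => by rw [Polynomial.eval_sub, Polynomial.eval_X, Polynomial.eval_C]

private theorem RR_sum {ι : Type} [Fintype ι] [DecidableEq ι] (A g : ι → ℂ) (s t : ℂ) :
    ∏ i, (A i + s * (t - g i)) = ∑ a ∈ Finset.range (Fintype.card ι + 1), (RR A g a).eval t * s ^ a := by
  have h1 : ∏ i, (A i + s * (t - g i)) = ∏ i, (s * (t - g i) + A i) := Finset.prod_congr rfl fun i _ => add_comm _ _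
  rw [h1, Finset.prod_add, Finset.sum_powerset, Finset.card_univ]
  refine Finset.sum_congr rfl fun a _ => ?_
  rw [RR_eval, Finset.sum_mul]
  refine Finset.sum_congr rfl fun T hT => ?_
  rw [Finset.prod_mul_distrib, Finset.prod_const, (Finset.mem_powersetCard.1 hT).2]
  ring

private theorem RR_deg {ι : Type} [Fintype ι] [DecidableEq ι] (A g : ι → ℂ) (a : ℕ) : (RR A g a).natDegree ≤ a := by
  unfold RR
  refine Polynomial.natDegree_sum_le_of_forall_le _ _ fun T hT => ?_
  refine (Polynomial.natDegree_mul_C_le _ _).trans ?_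
  refine (Polynomial.natDegree_prod_le _ _).trans ?_
  rw [← (Finset.mem_powersetCard.1 hT).2, Finset.card_eq_sum_ones]
  exact Finset.sum_le_sum fun i _ => (Polynomial.natDegree_X_sub_C (g i)).le

/-- the coefficients of the Lagrange basis -/
private noncomputable def lc (n j b : ℕ) : ℂ :=
  (Lagrange.basis (Finset.range (n + 1)) (fun j : ℕ => (j : ℂ)) j).coeff b

private theorem coeff_interp {n : ℕ} {p : Polynomial ℂ} (hp : p.natDegree ≤ n) (b : ℕ) :
    p.coeff b = ∑ j ∈ Finset.range (n + 1), p.eval (j : ℂ) * lc n j b := by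
  have h1 : p.degree < (Finset.range (n + 1)).card := by
    rw [Finset.card_range]
    exact lt_of_le_of_lt (Polynomial.natDegree_le_iff_degree_le.1 hp) (by exact_mod_cast Nat.lt_succ_self n)
  have h2 := Lagrange.eq_interpolate (s := Finset.range (n + 1)) (v := fun j : ℕ => (j : ℂ))
    (fun a _ b _ h => Nat.cast_injective h) h1
  conv_lhs => rw [h2]
  rw [Lagrange.interpolate_apply, Polynomial.finsetSum_coeff]
  exact Finset.sum_congr rfl fun j _ => by rw [Polynomial.coeff_C_mul]; rfl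

private theorem RR_coeff {ι : Type} [Fintype ι] [DecidableEq ι] (A g : ι → ℂ) {a : ℕ} (ha : a ≤ Fintype.card ι) (b : ℕ) :
    (RR A g a).coeff b = ∑ j ∈ Finset.range (Fintype.card ι + 1), (∑ k ∈ Finset.range (Fintype.card ι + 1),
      (∏ i, (A i + (k : ℂ) * ((j : ℂ) - g i))) * lc (Fintype.card ι) k a) * lc (Fintype.card ι) j b := by
  rw [coeff_interp ((RR_deg A g a).trans ha) b]
  refine Finset.sum_congr rfl fun j _ => ?_
  congr 1
  set p : Polynomial ℂ := ∑ a ∈ Finset.range (Fintype.card ι + 1), Polynomial.C ((RR A g a).eval (j : ℂ)) * Polynomial.X ^ a with hp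
  have h1 : p.natDegree ≤ Fintype.card ι := by
    rw [hp]
    refine Polynomial.natDegree_sum_le_of_forall_le _ _ fun c hc => ?_
    refine (Polynomial.natDegree_C_mul_X_pow_le _ _).trans ?_
    exact Nat.lt_succ_iff.1 (Finset.mem_range.1 hc)
  have h2 : p.coeff a = (RR A g a).eval (j : ℂ) := by
    rw [hp, Polynomial.finsetSum_coeff, Finset.sum_eq_single a]
    · rw [Polynomial.coeff_C_mul, Polynomial.coeff_X_pow_self, mul_one]
    · intro c _ hc
      rw [Polynomial.coeff_C_mul, Polynomial.coeff_X_pow, if_neg (Ne.symm hc), mul_zero]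
    · intro h
      exact absurd (Finset.mem_range.2 (Nat.lt_succ_iff.2 ha)) h
  have h3 : ∀ s : ℂ, p.eval s = ∏ i, (A i + s * ((j : ℂ) - g i)) := by
    intro s
    rw [RR_sum, hp, Polynomial.eval_finsetSum]
    exact Finset.sum_congr rfl fun c _ => by rw [Polynomial.eval_mul, Polynomial.eval_C, Polynomial.eval_pow, Polynomial.eval_X]
  rw [← h2, coeff_interp h1 a]
  exact Finset.sum_congr rfl fun k _ => by rw [h3]

private theorem RR_zero {ι : Type} [Fintype ι] [DecidableEq ι] (A g : ι → ℂ) (J : Finset ι) (hJ : ∀ i, i ∈ J ↔ A i = 0) {a : ℕ}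
    (T : Finset ι) (hT : T.card = a) (h : a < J.card ∨ (a = J.card ∧ T ≠ J)) : ∏ i ∈ Finset.univ \ T, A i = 0 := by
  have h1 : ¬ J ⊆ T := by
    intro h1
    rcases h with h | ⟨h, h'⟩
    · exact absurd (Finset.card_le_card h1) (by omega)
    · exact h' (Finset.eq_of_subset_of_card_le h1 (by omega)).symm
  obtain ⟨i, hi, hi'⟩ := Finset.not_subset.1 h1
  exact Finset.prod_eq_zero (Finset.mem_sdiff.2 ⟨Finset.mem_univ i, hi'⟩) ((hJ i).1 hi)

open Polynomial in
private theorem RR_card {ι : Type} [Fintype ι] [DecidableEq ι] (A g : ι → ℂ) (J : Finset ι) (hJ : ∀ i, i ∈ J ↔ A i = 0) :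
    RR A g J.card = (∏ i ∈ J, (X - C (g i))) * C (∏ i ∈ Finset.univ \ J, A i) := by
  unfold RR
  rw [Finset.sum_eq_single J]
  · intro T hT hne
    rw [RR_zero A g J hJ T (Finset.mem_powersetCard.1 hT).2 (Or.inr ⟨rfl, hne⟩), C_0, mul_zero]
  · intro h
    exact absurd (Finset.mem_powersetCard.2 ⟨Finset.subset_univ J, rfl⟩) h

private theorem RR_lt {ι : Type} [Fintype ι] [DecidableEq ι] (A g : ι → ℂ) (J : Finset ι) (hJ : ∀ i, i ∈ J ↔ A i = 0) {a : ℕ}
    (ha : a < J.card) : RR A g a = 0 := by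
  unfold RR
  refine Finset.sum_eq_zero fun T hT => ?_
  rw [RR_zero A g J hJ T (Finset.mem_powersetCard.1 hT).2 (Or.inl ha), Polynomial.C_0, mul_zero]

private theorem RR_top {ι : Type} [Fintype ι] [DecidableEq ι] (A g : ι → ℂ) (J : Finset ι) (hJ : ∀ i, i ∈ J ↔ A i = 0) :
    (RR A g J.card).coeff J.card = ∏ i ∈ Finset.univ \ J, A i := by
  rw [RR_card A g J hJ, Polynomial.coeff_mul_C]
  have h1 : (∏ i ∈ J, (Polynomial.X - Polynomial.C (g i))).Monic := Polynomial.monic_prod_of_monic _ _ fun i _ => Polynomial.monic_X_sub_C _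
  have h2 : (∏ i ∈ J, (Polynomial.X - Polynomial.C (g i))).natDegree = J.card := by
    rw [Polynomial.natDegree_prod_of_monic _ _ fun i _ => Polynomial.monic_X_sub_C _, Finset.card_eq_sum_ones]
    exact Finset.sum_congr rfl fun i _ => Polynomial.natDegree_X_sub_C (g i)
  rw [← h2, h1.coeff_natDegree, one_mul]

theorem cf_alg {E : Type} [NormedAddCommGroup E] [NormedSpace ℂ E] {ι : Type} [Fintype ι] {δ : ℝ} (hδ : 0 < δ) {A g : E → ι → ℂ}
    (hP : ∀ s t : ℂ, ∀ x ∈ ball (0 : E) δ, AnalyticAt ℂ (fun x => ∏ i, (A x i + s * (t - g x i))) x) :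
    ∃ (m : ℕ) (Q : ℕ → E → ℂ), m ≤ Fintype.card ι ∧ (∀ b, ∀ x ∈ ball (0 : E) δ, AnalyticAt ℂ (Q b) x) ∧ (∃ x ∈ ball (0 : E) δ, Q m x ≠ 0) ∧
      ∀ x ∈ ball (0 : E) δ, Q m x ≠ 0 → ∃ J : Finset ι, (∀ i, i ∈ J ↔ A x i = 0) ∧ J.card = m ∧ ∀ t : ℂ, ∑ b ∈ Finset.range (m + 1), Q b x * t ^ b = Q m x * ∏ i ∈ J, (t - g x i) := by
  classical
  set Z : E → Finset ι := fun x => Finset.univ.filter fun i => A x i = 0 with hZ
  have hZm : ∀ x i, i ∈ Z x ↔ A x i = 0 := fun x i => by
    rw [hZ]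
    simp
  have hex : ∃ k, ∃ x ∈ ball (0 : E) δ, (Z x).card = k := ⟨_, 0, mem_ball_self hδ, rfl⟩
  obtain ⟨x₀, hx₀, hm⟩ := Nat.find_spec hex
  have hmin : ∀ x ∈ ball (0 : E) δ, Nat.find hex ≤ (Z x).card := fun x hx => Nat.find_min' hex ⟨x, hx, rfl⟩
  set m := Nat.find hex
  have hmn : m ≤ Fintype.card ι := by
    rw [← hm]
    exact Finset.card_le_univ _
  have hne : ∀ x, ∏ i ∈ Finset.univ \ Z x, A x i ≠ 0 := by
    intro x
    rw [Finset.prod_ne_zero_iff]
    intro i hi h0
    exact (Finset.mem_sdiff.1 hi).2 ((hZm x i).2 h0)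
  refine ⟨m, fun b x => (RR (A x) (g x) m).coeff b, hmn, ?_, ⟨x₀, hx₀, ?_⟩, ?_⟩
  · intro b x hx
    have h1 : (fun x => (RR (A x) (g x) m).coeff b) = fun x => ∑ j ∈ Finset.range (Fintype.card ι + 1),
        (∑ k ∈ Finset.range (Fintype.card ι + 1), (∏ i, (A x i + (k : ℂ) * ((j : ℂ) - g x i))) * lc (Fintype.card ι) k m) *
          lc (Fintype.card ι) j b := funext fun x => RR_coeff (A x) (g x) hmn b
    show AnalyticAt ℂ (fun x => (RR (A x) (g x) m).coeff b) x
    rw [h1]
    refine Finset.analyticAt_fun_sum _ fun j _ => ?_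
    refine AnalyticAt.mul ?_ analyticAt_const
    refine Finset.analyticAt_fun_sum _ fun k _ => ?_
    exact (hP (k : ℂ) (j : ℂ) x hx).mul analyticAt_const
  · show (RR (A x₀) (g x₀) m).coeff m ≠ 0
    rw [← hm, RR_top (A x₀) (g x₀) (Z x₀) (hZm x₀)]
    exact hne x₀
  · intro x hx hQ
    have h1 : (Z x).card = m := by
      refine le_antisymm ?_ (hmin x hx)
      by_contra h
      apply hQ
      show (RR (A x) (g x) m).coeff m = 0
      rw [RR_lt (A x) (g x) (Z x) (hZm x) (by omega), Polynomial.coeff_zero]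
    refine ⟨Z x, hZm x, h1, fun t => ?_⟩
    have h2 : (RR (A x) (g x) m).coeff m = ∏ i ∈ Finset.univ \ Z x, A x i := by
      rw [← h1]
      exact RR_top (A x) (g x) (Z x) (hZm x)
    have h3 := RR_deg (A x) (g x) m
    show ∑ b ∈ Finset.range (m + 1), (RR (A x) (g x) m).coeff b * t ^ b = (RR (A x) (g x) m).coeff m * _
    rw [← Polynomial.eval_eq_sum_range' (Nat.lt_succ_of_le h3), h2]
    have h4 : RR (A x) (g x) m = (∏ i ∈ Z x, (Polynomial.X - Polynomial.C (g x i))) * Polynomial.C (∏ i ∈ Finset.univ \ Z x, A x i) := by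
      rw [← h1]
      exact RR_card (A x) (g x) (Z x) (hZm x)
    rw [h4, Polynomial.eval_mul, Polynomial.eval_C, Polynomial.eval_prod, mul_comm]
    congr 1
    exact Finset.prod_congr rfl fun i _ => by rw [Polynomial.eval_sub, Polynomial.eval_X, Polynomial.eval_C]

end Pool.Agent.G4.K
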