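import Pool.Agent.G4.K.Defs
import Pool.Agent.G4.Simp
import Pool.Agent.G3.A.Defs
import Pool.Agent.TG.XTan

/-!
# G4 K Ci: the set of the bad points is a local complete intersection

`ba_loc`: for `z ∈ D \ B` near `y` and a coordinate `κ` at `z` (`hco`): `s ∘ κ` is `0` on `{q 0 = 0}`, so `fderiv s z (fderiv κ 0 v) = 0` for `v 0 = 0`; as `fderiv s z ≠ 0` and `fderiv κ 0` is bijective, `fderiv s z` is `0` exactly on the images of the `v`
with `v 0 = 0`; so `¬ TransAt D z a` iff `fderiv s z a = 0`.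
`ci_ba`: `σ = s`, `ρ = t * fderiv s · a`.  `σ` is not `0` near `q`: `LDi D`.  Nowhere dense: let `z` be near `q`, `s z = 0`, and suppose `t z' * fderiv s z' a = 0` for all `z' ∈ D` near `z`; there is such a `z' = z₁ ∈ D \ B` (`D ⊆ closure (D \ B)`), `t z₁ ≠ 0`, so
`fderiv s z' a = 0` for all `z' ∈ D` near `z₁`; as `fderiv s z₁ ≠ 0`: `‖fderiv s z' a‖ ≤ C ‖s z'‖` for all `z'` near `z₁` (choose `e` with `fderiv s z₁ e ≠ 0`; `s (z' + w e)` has a zero `w` with `‖w‖ ≤ C ‖s z'‖`; mean value theorem).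
So `φ w = s (z₁ + w a)` satisfies `φ 0 = 0`, `‖φ'‖ ≤ C ‖φ‖` near `0`: `φ = 0` near `0` (order of vanishing), against `LDi D`.
-/

set_option autoImplicit false

open Topology Filter Metric

namespace Pool.Agent.G4.K

open Pool.Agent.AD (Vd)
open Pool.Agent.TG (TransAt IsCoord)
open Pool.Agent.G3.A (Ba)

variable {k : ℕ} {D B : Set (Vd (k + 1))}

private theorem ci_zero {f : Vd (k + 1) → ℂ} {y : Vd (k + 1)} (hf : ContinuousAt f y) (h : ∃ᶠ z in 𝓝 y, f z = 0) : f y = 0 := by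
  by_contra hn
  exact h (hf.eventually_ne hn)

private theorem ci_not {z a : Vd (k + 1)} (ha : a ≠ 0) (h : ¬ TransAt D z a) :
    ∃ κ : Vd (k + 1) → Vd (k + 1), IsCoord D κ z ∧ ∃ q : Vd (k + 1), q 0 = 0 ∧ fderiv ℂ κ 0 q = a := by
  by_contra hn
  exact h ⟨ha, fun κ hκ q hq hqa => hn ⟨κ, hκ, q, hq, hqa⟩⟩

/-- the derivative of a function which is `0` on `D` is `0` on the tangent space of `D` -/
private theorem ci_der {κ : Vd (k + 1) → Vd (k + 1)} {p : Vd (k + 1)} (h : IsCoord D κ p) {f : Vd (k + 1) → ℂ} (hf : DifferentiableAt ℂ f p)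
    (h0 : ∀ᶠ x in 𝓝 p, x ∈ D → f x = 0) {q : Vd (k + 1)} (hq : q 0 = 0) : fderiv ℂ f p (fderiv ℂ κ 0 q) = 0 := by
  have h5 : HasDerivAt (fun z : ℂ => z • q) q 0 := by
    have := (hasDerivAt_id (0 : ℂ)).smul_const q
    simpa using this
  have h6 : HasDerivAt (fun z : ℂ => κ (z • q)) (fderiv ℂ κ 0 q) 0 := by
    have h7 : HasFDerivAt κ (fderiv ℂ κ 0) ((0 : ℂ) • q) := by
      rw [zero_smul]
      exact h.an.differentiableAt.hasFDerivAt
    exact h7.comp_hasDerivAt (0 : ℂ) h5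
  have h8 : κ ((0 : ℂ) • q) = p := by
    rw [zero_smul]
    exact h.zero
  have h9 : HasDerivAt (fun z : ℂ => f (κ (z • q))) (fderiv ℂ f p (fderiv ℂ κ 0 q)) 0 := by
    have h10 : HasFDerivAt f (fderiv ℂ f p) (κ ((0 : ℂ) • q)) := by
      rw [h8]
      exact hf.hasFDerivAt
    exact h10.comp_hasDerivAt (0 : ℂ) h6
  have h11 : Tendsto (fun z : ℂ => z • q) (𝓝 0) (𝓝 0) := by
    have := h5.continuousAt.tendsto
    rwa [zero_smul] at this
  have h12 : Tendsto (fun z : ℂ => κ (z • q)) (𝓝 0) (𝓝 p) := by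
    have := h6.continuousAt.tendsto
    rwa [h8] at this
  have h13 : HasDerivAt (fun z : ℂ => f (κ (z • q))) 0 0 := by
    refine (hasDerivAt_const (0 : ℂ) (0 : ℂ)).congr_of_eventuallyEq ?_
    filter_upwards [h11.eventually h.mem_iff, h12.eventually h0] with z hz1 hz2
    refine hz2 (hz1.2 ?_)
    show z • q 0 = 0
    rw [hq, smul_zero]
  exact h9.unique h13

/-- the local inverse of a coordinate system -/
private theorem ci_inv {κ : Vd (k + 1) → Vd (k + 1)} {p : Vd (k + 1)} (h : IsCoord D κ p) :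
    ∃ ψ : Vd (k + 1) → Vd (k + 1), AnalyticAt ℂ ψ p ∧ ψ p = 0 ∧ (∀ᶠ x in 𝓝 p, κ (ψ x) = x) ∧ ∀ᶠ x in 𝓝 p, (x ∈ D ↔ (ψ x) 0 = 0) := by
  obtain ⟨ψ, h1, -, h3, h4⟩ := H62.BU.local_inverse h.an fun v hv => h.inj (by rw [hv, map_zero])
  rw [h.zero] at h1 h3 h4
  refine ⟨ψ, h1, h4, h3, ?_⟩
  have h5 : Tendsto ψ (𝓝 p) (𝓝 0) := by
    have := h1.continuousAt.tendsto
    rwa [h4] at this
  filter_upwards [h5.eventually h.mem_iff, h3] with x hx hx3
  rw [hx3] at hx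
  exact hx

/-- a holomorphic function with a zero at `0` and `‖φ'‖ ≤ C ‖φ‖` is `0` -/
private theorem ci_gron {φ : ℂ → ℂ} {C : ℝ} (hφ : AnalyticAt ℂ φ 0) (h0 : φ 0 = 0) (h : ∀ᶠ w in 𝓝 (0 : ℂ), ‖deriv φ w‖ ≤ C * ‖φ w‖) :
    ∀ᶠ w in 𝓝 (0 : ℂ), φ w = 0 := by
  by_contra hn
  obtain ⟨n, g, hg, hg0, hfg⟩ := (hφ.exists_eventuallyEq_pow_smul_nonzero_iff).2 hn
  simp only [sub_zero, smul_eq_mul] at hfg
  have hn1 : n ≠ 0 := by
    rintro rfl
    have h1 := hfg.self_of_nhds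
    rw [h0, pow_zero, one_mul] at h1
    exact hg0 h1.symm
  obtain ⟨m, rfl⟩ := Nat.exists_eq_succ_of_ne_zero hn1
  have hd : ∀ᶠ w in 𝓝 (0 : ℂ), deriv φ w = w ^ m * (((m : ℂ) + 1) * g w + w * deriv g w) := by
    filter_upwards [hfg.eventually_nhds, hg.eventually_analyticAt] with w hw hgw
    have h1 : deriv φ w = deriv (fun z => z ^ (m + 1) * g z) w := EventuallyEq.deriv_eq hw
    have h2 : HasDerivAt (fun z => z ^ (m + 1) * g z) (((m + 1 : ℕ) : ℂ) * w ^ m * g w + w ^ (m + 1) * deriv g w) w :=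
      (hasDerivAt_pow (m + 1) w).mul hgw.differentiableAt.hasDerivAt
    rw [h1, h2.deriv]
    push_cast
    ring
  have hev : ∀ᶠ w in 𝓝[≠] (0 : ℂ), ‖((m : ℂ) + 1) * g w + w * deriv g w‖ ≤ C * ‖w‖ * ‖g w‖ := by
    filter_upwards [(h.and (hd.and hfg)).filter_mono nhdsWithin_le_nhds, self_mem_nhdsWithin] with w hw hw0
    obtain ⟨a1, a2, a3⟩ := hw
    rw [a2, a3, norm_mul, norm_mul, norm_pow, norm_pow] at a1
    have hpos : 0 < ‖w‖ ^ m := pow_pos (norm_pos_iff.2 hw0) m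
    have h5 : ‖w‖ ^ m * ‖((m : ℂ) + 1) * g w + w * deriv g w‖ ≤ ‖w‖ ^ m * (C * ‖w‖ * ‖g w‖) := by
      refine a1.trans (le_of_eq ?_)
      rw [Nat.succ_eq_add_one, pow_succ]
      ring
    exact le_of_mul_le_mul_left h5 hpos
  have hg1 := hg.continuousAt
  have hg2 := hg.deriv.continuousAt
  have c1 : ContinuousAt (fun w : ℂ => ‖((m : ℂ) + 1) * g w + w * deriv g w‖) 0 :=
    ((continuousAt_const.mul hg1).add (continuousAt_id.mul hg2)).norm
  have c2 : ContinuousAt (fun w : ℂ => C * ‖w‖ * ‖g w‖) 0 := (continuousAt_const.mul continuousAt_id.norm).mul hg1.norm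
  have h6 := le_of_tendsto_of_tendsto (c1.tendsto.mono_left nhdsWithin_le_nhds) (c2.tendsto.mono_left nhdsWithin_le_nhds) hev
  rw [norm_zero, mul_zero, zero_mul, zero_mul, add_zero, norm_mul] at h6
  have h7 : 0 < ‖(m : ℂ) + 1‖ := by
    rw [norm_pos_iff]
    exact Nat.cast_add_one_ne_zero m
  have h8 : 0 < ‖g 0‖ := norm_pos_iff.2 hg0
  have h9 := mul_pos h7 h8
  linarith

/-- a function which is `0` for `q 0 = 0` is bounded by `C ‖q 0‖` -/
private theorem ci_mv {F : Vd (k + 1) → ℂ} (hF : AnalyticAt ℂ F 0) (h0 : ∀ᶠ q in 𝓝 (0 : Vd (k + 1)), q 0 = 0 → F q = 0) :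
    ∃ C : ℝ, ∀ᶠ q in 𝓝 (0 : Vd (k + 1)), ‖F q‖ ≤ C * ‖q 0‖ := by
  have h1 : ∀ᶠ q in 𝓝 (0 : Vd (k + 1)), ‖fderiv ℂ F q‖ ≤ ‖fderiv ℂ F 0‖ + 1 := by
    have h2 := hF.fderiv.continuousAt.norm
    filter_upwards [h2.eventually (gt_mem_nhds (lt_add_one ‖fderiv ℂ F 0‖))] with q hq
    exact hq.le
  obtain ⟨r, hr, hb⟩ := Metric.eventually_nhds_iff_ball.1 (h0.and (h1.and hF.eventually_analyticAt))
  refine ⟨‖fderiv ℂ F 0‖ + 1, ?_⟩
  filter_upwards [ball_mem_nhds (0 : Vd (k + 1)) hr] with q hq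
  set q' : Vd (k + 1) := Function.update q 0 0 with hq'
  have hq'b : q' ∈ ball (0 : Vd (k + 1)) r := by
    rw [mem_ball_zero_iff, pi_norm_lt_iff hr]
    intro i
    by_cases hi : i = 0
    · rw [hi, hq', Function.update_self, norm_zero]
      exact hr
    · rw [hq', Function.update_of_ne hi]
      rw [mem_ball_zero_iff] at hq
      exact (norm_le_pi_norm q i).trans_lt hq
  have h3 : F q' = 0 := (hb q' hq'b).1 (by rw [hq', Function.update_self])
  have h4 : ‖q - q'‖ ≤ ‖q 0‖ := by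
    rw [pi_norm_le_iff_of_nonneg (norm_nonneg _)]
    intro i
    rw [Pi.sub_apply]
    by_cases hi : i = 0
    · rw [hi, hq', Function.update_self, sub_zero]
    · rw [hq', Function.update_of_ne hi, sub_self, norm_zero]
      exact norm_nonneg _
  have h5 := (convex_ball (0 : Vd (k + 1)) r).norm_image_sub_le_of_norm_fderiv_le (𝕜 := ℂ) (f := F) (C := ‖fderiv ℂ F 0‖ + 1)
    (fun x hx => (hb x hx).2.2.differentiableAt) (fun x hx => (hb x hx).2.1) hq'b hq
  rw [h3, sub_zero] at h5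
  exact h5.trans (mul_le_mul_of_nonneg_left h4 (by positivity))

theorem ba_loc {y a : Vd (k + 1)} {s t : Vd (k + 1) → ℂ} (hs : AnalyticAt ℂ s y)
    (h : ∀ᶠ z in 𝓝 y, (z ∈ D ↔ s z = 0) ∧ (z ∈ B ↔ s z = 0 ∧ t z = 0) ∧ (z ∈ D → z ∉ B → fderiv ℂ s z ≠ 0))
    (hco : ∀ y ∈ D, y ∉ B → ∃ κ : Vd (k + 1) → Vd (k + 1), IsCoord D κ y) (ha : a ≠ 0) :
    ∀ᶠ z in 𝓝 y, (z ∈ Ba D B a ↔ s z = 0 ∧ t z * fderiv ℂ s z a = 0) := by
  filter_upwards [h.eventually_nhds, hs.eventually_analyticAt] with z hz hsz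
  obtain ⟨h1, h2, h3⟩ := hz.self_of_nhds
  have hD0 : ∀ᶠ x in 𝓝 z, x ∈ D → s x = 0 := by
    filter_upwards [hz] with x hx hxD
    exact hx.1.1 hxD
  constructor
  · rintro ⟨hzD, hzB⟩
    refine ⟨h1.1 hzD, ?_⟩
    rcases hzB with hzB | hzT
    · rw [(h2.1 hzB).2, zero_mul]
    · obtain ⟨κ, hκ, q, hq, hqa⟩ := ci_not ha hzT
      rw [← hqa, ci_der hκ hsz.differentiableAt hD0 hq, mul_zero]
  · rintro ⟨hsz0, hprod⟩
    have hzD := h1.2 hsz0
    refine ⟨hzD, ?_⟩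
    by_cases hzB : z ∈ B
    · exact Or.inl hzB
    right
    intro hT
    have hda : fderiv ℂ s z a = 0 := by
      rcases mul_eq_zero.1 hprod with h4 | h4
      · exact absurd (h2.2 ⟨hsz0, h4⟩) hzB
      · exact h4
    obtain ⟨κ, hκ⟩ := hco z hzD hzB
    have hsur : Function.Surjective (fderiv ℂ κ 0) :=
      (LinearMap.injective_iff_surjective (f := (fderiv ℂ κ 0 : Vd (k + 1) →ₗ[ℂ] Vd (k + 1)))).1 hκ.inj
    obtain ⟨v, hv⟩ := hsur a
    have hv0 : v 0 ≠ 0 := fun h0 => hT.2 κ hκ v h0 hv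
    refine h3 hzD hzB (ContinuousLinearMap.ext fun w => ?_)
    obtain ⟨w', rfl⟩ := hsur w
    have h5 : w' = (w' 0 / v 0) • v + (w' - (w' 0 / v 0) • v) := by abel
    have h6 : (w' - (w' 0 / v 0) • v) 0 = 0 := by
      rw [Pi.sub_apply, Pi.smul_apply, smul_eq_mul, div_mul_cancel₀ _ hv0, sub_self]
    rw [h5, map_add, map_add, map_smul, map_smul, hv, hda, smul_zero, zero_add, ci_der hκ hsz.differentiableAt hD0 h6]
    rfl

theorem ba_cl (hD : IsClosed D) (hE : Leq D B) (hco : ∀ y ∈ D, y ∉ B → ∃ κ : Vd (k + 1) → Vd (k + 1), IsCoord D κ y) {a : Vd (k + 1)} (ha : a ≠ 0) : IsClosed (Ba D B a) := by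
  rw [isClosed_iff_frequently]
  intro y hy
  have hyD : y ∈ D := by
    by_contra hn
    refine hy ?_
    filter_upwards [hD.isOpen_compl.mem_nhds hn] with z hz hz2
    exact hz hz2.1
  obtain ⟨s, t, hs, ht, hst⟩ := hE.2 y hyD
  have h1 := ba_loc (a := a) hs hst hco ha
  rw [h1.self_of_nhds]
  have h2 : ∃ᶠ z in 𝓝 y, s z = 0 ∧ t z * fderiv ℂ s z a = 0 := (hy.and_eventually h1).mono fun z hz => hz.2.1 hz.1
  have hc : ContinuousAt (fun z => t z * fderiv ℂ s z a) y :=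
    ht.continuousAt.mul (hs.fderiv.continuousAt.clm_apply continuousAt_const)
  exact ⟨ci_zero hs.continuousAt (h2.mono fun z hz => hz.1), ci_zero hc (h2.mono fun z hz => hz.2)⟩

theorem ci_ba (hL : LDi D) (hE : Leq D B) (hco : ∀ y ∈ D, y ∉ B → ∃ κ : Vd (k + 1) → Vd (k + 1), IsCoord D κ y) {a : Vd (k + 1)} (ha : a ≠ 0) : CI (Ba D B a) := by
  intro y hy
  obtain ⟨s, t, hs, ht, hst⟩ := hE.2 y hy.1
  have h1 := ba_loc (a := a) hs hst hco ha
  refine ⟨s, fun z => t z * fderiv ℂ s z a, hs, ht.mul (((ContinuousLinearMap.apply ℂ ℂ a).analyticAt _).comp hs.fderiv), ?_, h1, ?_⟩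
  · have h2 := hL a ha y 0
    have h3 : Tendsto (fun w : ℂ => w • a + y) (𝓝[≠] 0) (𝓝 y) := by
      have h4 : ContinuousAt (fun w : ℂ => w • a + y) 0 := by fun_prop
      have h5 := h4.tendsto
      rw [zero_smul, zero_add] at h5
      exact h5.mono_left nhdsWithin_le_nhds
    refine h3.frequently (Eventually.frequently ?_)
    filter_upwards [h2, h3.eventually hst] with w hw1 hw2 hw3
    exact hw1 (hw2.1.2 hw3)
  · filter_upwards [hst.eventually_nhds, hs.eventually_analyticAt, ht.eventually_analyticAt] with z hz hsz htz hz0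
    by_contra hn
    rw [not_frequently] at hn
    have hzD : z ∈ D := hz.self_of_nhds.1.2 hz0
    have hcl : ∃ᶠ z₁ in 𝓝 z, z₁ ∈ D \ B := mem_closure_iff_frequently.1 (hE.1 hzD)
    obtain ⟨z₁, ⟨h5, h6⟩, h7, h8, h9, h10⟩ := (hcl.and_eventually (hn.eventually_nhds.and (hz.eventually_nhds.and
      (hsz.eventually_analyticAt.and htz.eventually_analyticAt)))).exists
    have h11 := h8.self_of_nhds
    have ht1 : t z₁ ≠ 0 := fun h0 => h6 (h11.2.1.2 ⟨h11.1.1 h5, h0⟩)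
    have h12 := ba_loc (a := a) h9 h8 hco ha
    -- `a` is tangent to `D` near `z₁`
    have h13 : ∀ᶠ x in 𝓝 z₁, x ∈ D → ¬ TransAt D x a := by
      filter_upwards [h7, h8, h10.continuousAt.eventually_ne ht1, h12] with x a1 a2 a3 a4 hxD
      have hs0 := a2.1.1 hxD
      have h14 : t x * fderiv ℂ s x a = 0 := by
        by_contra hne
        exact a1 ⟨hs0, hne⟩
      have h15 := a4.2 ⟨hs0, h14⟩
      rcases h15.2 with h16 | h16
      · exact absurd (a2.2.1.1 h16).2 a3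
      · exact h16
    obtain ⟨κ, hκ⟩ := hco z₁ h5 h6
    obtain ⟨ψ, g1, g2, g3, g4⟩ := ci_inv hκ
    have hθ : AnalyticAt ℂ (fun x => (ψ x) 0) z₁ := analyticAt_pi_iff.1 g1 0
    have h14 : ∀ᶠ x in 𝓝 z₁, x ∈ D → fderiv ℂ (fun x => (ψ x) 0) x a = 0 := by
      filter_upwards [h13, hθ.eventually_analyticAt, g4.eventually_nhds] with x a1 a2 a3 hxD
      obtain ⟨κ', b1, q, b2, b3⟩ := ci_not ha (a1 hxD)
      rw [← b3]
      refine ci_der b1 a2.differentiableAt ?_ b2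
      filter_upwards [a3] with x' hx' hx'D
      exact hx'.1 hx'D
    have hκc : Tendsto κ (𝓝 0) (𝓝 z₁) := by
      have := hκ.an.continuousAt.tendsto
      rwa [hκ.zero] at this
    have hFa : AnalyticAt ℂ (fun q => fderiv ℂ (fun x => (ψ x) 0) (κ q) a) 0 := by
      have b1 : AnalyticAt ℂ (fderiv ℂ fun x => (ψ x) 0) (κ 0) := by
        rw [hκ.zero]
        exact hθ.fderiv
      exact ((ContinuousLinearMap.apply ℂ ℂ a).analyticAt _).comp (b1.comp hκ.an)
    obtain ⟨C, hC⟩ := ci_mv hFa (by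
      filter_upwards [hκ.mem_iff, hκc.eventually h14] with q b1 b2 b3
      exact b2 (b1.2 b3))
    have hψc : Tendsto ψ (𝓝 z₁) (𝓝 0) := by
      have := g1.continuousAt.tendsto
      rwa [g2] at this
    have hl : ∀ w : ℂ, HasDerivAt (fun w : ℂ => w • a + z₁) a w := by
      intro w
      have := ((hasDerivAt_id w).smul_const a).add_const z₁
      simpa using this
    have hlc : Tendsto (fun w : ℂ => w • a + z₁) (𝓝 0) (𝓝 z₁) := by
      have := (hl 0).continuousAt.tendsto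
      rwa [zero_smul, zero_add] at this
    have hφ : AnalyticAt ℂ (fun w : ℂ => (ψ (w • a + z₁)) 0) 0 := by
      have b1 : AnalyticAt ℂ (fun x => (ψ x) 0) ((0 : ℂ) • a + z₁) := by
        rw [zero_smul, zero_add]
        exact hθ
      exact b1.comp (f := fun w : ℂ => w • a + z₁) ((analyticAt_id.smul analyticAt_const).add analyticAt_const)
    have h15 := ci_gron (C := C) hφ (by
      show (ψ ((0 : ℂ) • a + z₁)) 0 = 0
      rw [zero_smul, zero_add, g2]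
      rfl) (by
      filter_upwards [hlc.eventually (hθ.eventually_analyticAt.and (g3.and (hψc.eventually hC)))] with w hw
      obtain ⟨b1, b2, b3⟩ := hw
      have b5 : HasFDerivAt (fun x => (ψ x) 0) (fderiv ℂ (fun x => (ψ x) 0) (w • a + z₁)) (w • a + z₁) := b1.differentiableAt.hasFDerivAt
      have b6 := b5.comp_hasDerivAt w (hl w)
      have b4 : HasDerivAt (fun w : ℂ => (ψ (w • a + z₁)) 0) (fderiv ℂ (fun x => (ψ x) 0) (w • a + z₁) a) w := b6
      rw [b4.deriv]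
      rw [b2] at b3
      exact b3)
    have h16 := hL a ha z₁ 0
    obtain ⟨w, c1, c2⟩ := ((h15.and (hlc.eventually g4)).filter_mono (nhdsWithin_le_nhds (s := {0}ᶜ)) |>.and h16).exists
    exact c2 (c1.2.2 c1.1)

end Pool.Agent.G4.K
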