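import Pool.Agent.G4.K.Defs
import Pool.Agent.H22.HF.Fac

/-!
# G4 K Sy: the norm is holomorphic

For `x ∈ U` and `F` analytic on the closed disc: `∑ i, F (x, β x i) = (2 π i)⁻¹ ∮ F (x, w) (deriv (σ (x, ·)) w / σ (x, w))` (logarithmic derivative of the factorisation, Cauchy), analytic in `x` (`H22.HF.analyticAt_circleIntegral`).
With `F ^ p`: the power sums of the `F (x, β x i)` are analytic; by Newton's identities (`MvPolynomial.mul_esymm_eq_sum`) the elementary symmetric functions are analytic; the norm is the last one.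
-/

set_option autoImplicit false

open Topology Filter Metric

namespace Pool.Agent.G4.K

open Pool.Agent.AD (Vd)

/-- the normalised contour integral -/
private noncomputable def syA {E : Type} [NormedAddCommGroup E] [NormedSpace ℂ E] (g : E × ℂ → ℂ) (ρ : ℝ) (H : E × ℂ → ℂ) (p : E) : ℂ :=
  (2 * Real.pi * Complex.I)⁻¹ * ∮ t in C(0, ρ), H (p, t) * fderiv ℂ g (p, t) (0, 1) / g (p, t)

private theorem syA_analytic {E : Type} [NormedAddCommGroup E] [NormedSpace ℂ E] [FiniteDimensional ℂ E] {g H : E × ℂ → ℂ} {ρ : ℝ} (hρ : 0 < ρ) {p : E}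
    (hg : ∀ t ∈ sphere (0 : ℂ) ρ, AnalyticAt ℂ g (p, t)) (hH : ∀ t ∈ sphere (0 : ℂ) ρ, AnalyticAt ℂ H (p, t)) (hn : ∀ t ∈ sphere (0 : ℂ) ρ, g (p, t) ≠ 0) :
    AnalyticAt ℂ (syA g ρ H) p := by
  unfold syA
  refine analyticAt_const.mul (H22.HF.analyticAt_circleIntegral (F := fun z => H z * fderiv ℂ g z (0, 1) / g z) hρ ?_)
  intro t ht
  refine ((hH t ht).mul ?_).div (hg t ht) (hn t ht)
  exact (ContinuousLinearMap.analyticAt (ContinuousLinearMap.apply ℂ ℂ ((0, 1) : E × ℂ)) _).comp (hg t ht).fderiv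

private theorem syA_eq {E : Type} [NormedAddCommGroup E] [NormedSpace ℂ E] [FiniteDimensional ℂ E] {g H : E × ℂ → ℂ} {ρ : ℝ} (hρ : 0 < ρ) {p : E}
    (hg : ∀ t ∈ closedBall (0 : ℂ) ρ, AnalyticAt ℂ g (p, t)) (hH : ∀ t ∈ closedBall (0 : ℂ) ρ, AnalyticAt ℂ H (p, t))
    {w : ℂ → ℂ} {ν : ℕ} {r : Fin ν → ℂ} (hr : ∀ i, ‖r i‖ < ρ) (hw : ∀ t ∈ closedBall (0 : ℂ) ρ, AnalyticAt ℂ w t ∧ w t ≠ 0)
    (hφ : ∀ t ∈ closedBall (0 : ℂ) ρ, (fun t => g (p, t)) =ᶠ[𝓝 t] fun t => (∏ i, (t - r i)) * w t) :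
    syA g ρ H p = ∑ i, H (p, r i) := by
  have hin : ∀ t : ℂ, AnalyticAt ℂ (fun t : ℂ => ((p, t) : E × ℂ)) t := fun t => analyticAt_const.prod analyticAt_id
  have hps := H22.HF.power_sum (H := fun t => H (p, t)) hρ hr hw hφ (fun t ht => (hH t ht).comp (hin t))
  have hint : (∮ t in C(0, ρ), H (p, t) * fderiv ℂ g (p, t) (0, 1) / g (p, t)) = ∮ t in C(0, ρ), H (p, t) * deriv (fun t => g (p, t)) t / g (p, t) := by
    refine circleIntegral.integral_congr hρ.le (fun t ht => ?_)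
    have h1 : HasFDerivAt g (fderiv ℂ g (p, t)) (p, t) := (hg t (sphere_subset_closedBall ht)).differentiableAt.hasFDerivAt
    have h2 : HasDerivAt (fun t : ℂ => ((p, t) : E × ℂ)) ((0, 1) : E × ℂ) t := (hasDerivAt_const t p).prodMk (hasDerivAt_id t)
    have h3 : HasDerivAt (fun t => g (p, t)) (fderiv ℂ g (p, t) (0, 1)) t := h1.comp_hasDerivAt t h2
    simp only [h3.deriv]
  unfold syA
  rw [hint, hps, ← mul_assoc, inv_mul_cancel₀, one_mul]
  exact Complex.two_pi_I_ne_zero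

/-- two functions which are analytic at the points of a closed disc and equal on it are equal near its points -/
private theorem eventuallyEq_closedBall {f g : ℂ → ℂ} {ρ : ℝ} (hρ : 0 < ρ) (hf : ∀ t ∈ closedBall (0 : ℂ) ρ, AnalyticAt ℂ f t) (hg : ∀ t ∈ closedBall (0 : ℂ) ρ, AnalyticAt ℂ g t)
    (h : ∀ t ∈ closedBall (0 : ℂ) ρ, f t = g t) {t : ℂ} (ht : t ∈ closedBall (0 : ℂ) ρ) : f =ᶠ[𝓝 t] g := by
  refine ((hf t ht).frequently_eq_iff_eventually_eq (hg t ht)).1 ?_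
  have hcl : t ∈ closure (ball (0 : ℂ) ρ \ {t}) := by
    have h1 : closedBall (0 : ℂ) ρ ⊆ closure (ball (0 : ℂ) ρ) := by
      rw [closure_ball (0 : ℂ) hρ.ne']
    have h2 : Dense ({t}ᶜ : Set ℂ) := dense_compl_singleton t
    have h3 : ball (0 : ℂ) ρ ⊆ closure (ball (0 : ℂ) ρ ∩ {t}ᶜ) := h2.open_subset_closure_inter isOpen_ball
    have h4 : ball (0 : ℂ) ρ \ {t} = ball (0 : ℂ) ρ ∩ {t}ᶜ := rfl
    rw [h4]
    exact closure_minimal h3 isClosed_closure (h1 ht)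
  rw [mem_closure_iff_frequently] at hcl
  rw [frequently_nhdsWithin_iff]
  refine hcl.mono fun z hz => ⟨h z (ball_subset_closedBall hz.1), hz.2⟩

variable {E : Type} [NormedAddCommGroup E] [NormedSpace ℂ E] [FiniteDimensional ℂ E] {U : Set E} {r : ℝ} {σ : E × ℂ → ℂ} {n : ℕ} {β : E → Fin n → ℂ}

theorem RSys.norm_an (R : RSys U r σ β) {F : E × ℂ → ℂ} (hF : ∀ x ∈ U, ∀ w : ℂ, ‖w‖ ≤ r → AnalyticAt ℂ F (x, w)) : ∀ x ∈ U, AnalyticAt ℂ (fun x => ∏ i, F (x, β x i)) x := by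
  intro x₀ hx₀
  obtain ⟨P, hP⟩ := H22.HF.esymm_newton n
  have key : ∀ x ∈ U, ∀ k : ℕ, syA σ r (fun z => F z ^ (k + 1)) x = ∑ i, F (x, β x i) ^ (k + 1) := by
    intro x hx k
    obtain ⟨h, h1, h2⟩ := R.fac x hx
    have hin : ∀ t : ℂ, AnalyticAt ℂ (fun t : ℂ => ((x, t) : E × ℂ)) t := fun t => analyticAt_const.prod analyticAt_id
    refine syA_eq R.pos (fun t ht => R.an x hx t (mem_closedBall_zero_iff.1 ht)) (fun t ht => (hF x hx t (mem_closedBall_zero_iff.1 ht)).pow _) (R.lt x hx)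
      (fun t ht => h1 t (mem_closedBall_zero_iff.1 ht)) (fun t ht => ?_)
    refine eventuallyEq_closedBall R.pos ?_ ?_ ?_ ht
    · intro t ht
      exact AnalyticAt.comp (g := σ) (f := fun t : ℂ => ((x, t) : E × ℂ)) (R.an x hx t (mem_closedBall_zero_iff.1 ht)) (hin t)
    · intro t ht
      refine AnalyticAt.mul ?_ (h1 t (mem_closedBall_zero_iff.1 ht)).1
      exact Finset.analyticAt_fun_prod _ (fun i _ => analyticAt_id.sub analyticAt_const)
    · intro t ht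
      exact h2 t (mem_closedBall_zero_iff.1 ht)
  have han : ∀ k : ℕ, AnalyticAt ℂ (syA σ r (fun z => F z ^ (k + 1))) x₀ := by
    intro k
    refine syA_analytic R.pos (fun t ht => R.an x₀ hx₀ t ?_) (fun t ht => (hF x₀ hx₀ t ?_).pow _) (fun t ht => R.ne x₀ hx₀ t (mem_sphere_zero_iff_norm.1 ht))
    · exact (mem_sphere_zero_iff_norm.1 ht).le
    · exact (mem_sphere_zero_iff_norm.1 ht).le
  have hev : (fun x => ∏ i, F (x, β x i)) =ᶠ[𝓝 x₀] fun x => MvPolynomial.aeval (fun k : Fin n => syA σ r (fun z => F z ^ ((k : ℕ) + 1)) x) P := by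
    filter_upwards [R.op.mem_nhds hx₀] with x hx
    rw [hP (fun i => F (x, β x i)), MvPolynomial.aeval_eq_eval]
    congr 1
    simp only [key x hx]
  refine AnalyticAt.congr (AnalyticAt.aeval_mvPolynomial (fun k : Fin n => han (k : ℕ)) P) hev.symm

end Pool.Agent.G4.K
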