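import Pool.Agent.G4.K.Cf
import Pool.Agent.G4.K.Sy
import Mathlib.LinearAlgebra.Lagrange

/-!
# G4 K Nz: the norm is not `0`

Let `V ⊆ U` be an open neighbourhood of `x₀` on which the norm vanishes, and `ν x` the number of the `i` with `ρ (x, β x i) = 0`, `ν x ≥ 1`.  `∏ i, (ρ (x, β x i) + λ) = ∑ k, c k x λ ^ k` with continuous `c k` (interpolation, `norm_an`),
`ν x = min {k | c k x ≠ 0}`.  Let `x₁ ∈ V` with `ν x₁ = ν` minimal on `V`; on `V`: `c k = 0` for `k < ν`, so the product is `λ ^ ν * Q (x, λ)` with `Q` continuous and `Q (x₁, 0) = c ν x₁ ≠ 0`.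
Take `i₀` with `ρ (x₁, β x₁ i₀) = 0`; by `hd` there are points `p` near `(x₁, β x₁ i₀)` with `σ p = 0`, `ρ p ≠ 0`; at `λ = - ρ p` the product vanishes, so `Q (p.1, - ρ p) = 0`, against the continuity of `Q`.
-/

set_option autoImplicit false

open Topology Filter Metric

namespace Pool.Agent.G4.K

open Pool.Agent.AD (Vd)

open Polynomial in
/-- `∏ i, (X + a i)` -/
private noncomputable def pp {n : ℕ} (a : Fin n → ℂ) : ℂ[X] := ∏ i, (X + C (a i))

open Polynomial in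
private theorem pp_eval {n : ℕ} (a : Fin n → ℂ) (t : ℂ) : (pp a).eval t = ∏ i, (a i + t) := by
  rw [pp, eval_prod]
  refine Finset.prod_congr rfl fun i _ => ?_
  simp [add_comm]

open Polynomial in
private theorem pp_deg {n : ℕ} (a : Fin n → ℂ) : (pp a).natDegree ≤ n := by
  rw [pp]
  refine (natDegree_prod_le _ _).trans ?_
  refine (Finset.sum_le_sum (g := fun _ => 1) fun i _ => ?_).trans (by simp)
  exact (natDegree_X_add_C _).le

open Polynomial in
/-- interpolation -/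
private theorem pp_coeff {n : ℕ} (k : ℕ) : ∃ L : ℕ → ℂ, ∀ a : Fin n → ℂ, (pp a).coeff k = ∑ j ∈ Finset.range (n + 1), (∏ i, (a i + (j : ℂ))) * L j := by
  refine ⟨fun j => (Lagrange.basis (Finset.range (n + 1)) (fun j : ℕ => (j : ℂ)) j).coeff k, fun a => ?_⟩
  have hinj : Set.InjOn (fun j : ℕ => (j : ℂ)) (Finset.range (n + 1) : Set ℕ) := fun a _ b _ h => by
    have h' : (a : ℂ) = (b : ℂ) := h
    exact_mod_cast h'
  have hdeg : (pp a).degree < (Finset.range (n + 1)).card := by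
    rw [Finset.card_range]
    refine lt_of_le_of_lt degree_le_natDegree ?_
    exact_mod_cast Nat.lt_succ_of_le (pp_deg a)
  conv_lhs => rw [Lagrange.eq_interpolate hinj hdeg, Lagrange.interpolate_apply]
  rw [finsetSum_coeff]
  refine Finset.sum_congr rfl fun j _ => ?_
  rw [coeff_C_mul, pp_eval]

open Polynomial in
private theorem pp_split {n : ℕ} (a : Fin n → ℂ) : pp a = X ^ (Finset.univ.filter fun i => a i = 0).card * ∏ i ∈ Finset.univ.filter (fun i => ¬ a i = 0), (X + C (a i)) := by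
  rw [pp, ← Finset.prod_filter_mul_prod_filter_not Finset.univ (fun i => a i = 0)]
  congr 1
  rw [← Finset.prod_const]
  refine Finset.prod_congr rfl fun i hi => ?_
  rw [(Finset.mem_filter.1 hi).2]
  simp

open Polynomial in
private theorem pp_ne {n : ℕ} (a : Fin n → ℂ) : (pp a).coeff (Finset.univ.filter fun i => a i = 0).card ≠ 0 := by
  rw [pp_split a]
  have h := coeff_X_pow_mul (∏ i ∈ Finset.univ.filter (fun i => ¬ a i = 0), (X + C (a i))) (Finset.univ.filter fun i => a i = 0).card 0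
  rw [zero_add] at h
  rw [h, coeff_zero_eq_eval_zero, eval_prod, Finset.prod_ne_zero_iff]
  intro i hi
  simpa using (Finset.mem_filter.1 hi).2

open Polynomial in
private theorem pp_dvd {n : ℕ} (a : Fin n → ℂ) {m : ℕ} (hm : m ≤ (Finset.univ.filter fun i => a i = 0).card) (t : ℂ) :
    ∏ i, (a i + t) = t ^ m * ∑ k ∈ Finset.range (n + 1), (pp a).coeff (k + m) * t ^ k := by
  obtain ⟨q, hq⟩ : (X : ℂ[X]) ^ m ∣ pp a := by
    rw [pp_split a]
    exact (pow_dvd_pow _ hm).mul_right _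
  have h1 : ∀ k, (pp a).coeff (k + m) = q.coeff k := fun k => by rw [hq, coeff_X_pow_mul]
  have h2 : q.natDegree < n + 1 := by
    rcases eq_or_ne q 0 with h | h
    · simp [h]
    · have h3 := pp_deg a
      rw [hq, natDegree_mul (pow_ne_zero _ X_ne_zero) h, natDegree_X_pow] at h3
      omega
  simp only [h1]
  rw [← eval_eq_sum_range' h2, ← pp_eval, hq, eval_mul, eval_pow, eval_X]

variable {E : Type} [NormedAddCommGroup E] [NormedSpace ℂ E] [FiniteDimensional ℂ E] {U : Set E} {r : ℝ} {σ : E × ℂ → ℂ} {n : ℕ} {β : E → Fin n → ℂ}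

theorem RSys.norm_ne (R : RSys U r σ β) {ρ : E × ℂ → ℂ} (hρ : ∀ x ∈ U, ∀ w : ℂ, ‖w‖ ≤ r → AnalyticAt ℂ ρ (x, w))
    (hd : ∀ x ∈ U, ∀ w : ℂ, ‖w‖ < r → σ (x, w) = 0 → ∃ᶠ p in 𝓝 (x, w), σ p = 0 ∧ ρ p ≠ 0) {x₀ : E} (hx₀ : x₀ ∈ U) : ∃ᶠ x in 𝓝 x₀, ∏ i, ρ (x, β x i) ≠ 0 := by
  intro hcon
  have hcon' : ∀ᶠ x in 𝓝 x₀, ∏ i, ρ (x, β x i) = 0 := hcon.mono fun x h => not_not.1 h
  obtain ⟨V, hV, hVo, hxV⟩ := _root_.eventually_nhds_iff.1 (hcon'.and (R.op.mem_nhds hx₀))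
  -- the minimal number of zeros
  obtain ⟨x₁, hx₁, hmin⟩ : ∃ x₁ ∈ V, ∀ x ∈ V, (Finset.univ.filter fun i => ρ (x₁, β x₁ i) = 0).card ≤ (Finset.univ.filter fun i => ρ (x, β x i) = 0).card := by
    have hne : (Set.image (fun x => (Finset.univ.filter fun i => ρ (x, β x i) = 0).card) V).Nonempty := ⟨_, x₀, hxV, rfl⟩
    obtain ⟨x₁, h1, h2⟩ := Nat.sInf_mem hne
    refine ⟨x₁, h1, fun x hx => ?_⟩
    have := Nat.sInf_le (Set.mem_image_of_mem (fun x => (Finset.univ.filter fun i => ρ (x, β x i) = 0).card) hx)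
    simp only at h2 this
    omega
  set m := (Finset.univ.filter fun i => ρ (x₁, β x₁ i) = 0).card with hm
  have hx₁U := (hV x₁ hx₁).2
  -- continuity of the coefficients
  have hcc : ∀ k, ContinuousAt (fun x => (pp fun i => ρ (x, β x i)).coeff k) x₁ := by
    intro k
    obtain ⟨L, hL⟩ := pp_coeff (n := n) k
    simp only [hL]
    refine tendsto_finsetSum _ fun j _ => ?_
    have := R.norm_an (F := fun p => ρ p + (j : ℂ)) (fun x hx w hw => (hρ x hx w hw).add analyticAt_const) x₁ hx₁U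
    exact this.continuousAt.tendsto.mul tendsto_const_nhds
  have hQ : ContinuousAt (fun y : E × ℂ => ∑ k ∈ Finset.range (n + 1), (pp fun i => ρ (y.1, β y.1 i)).coeff (k + m) * y.2 ^ k) (x₁, (0 : ℂ)) := by
    refine tendsto_finsetSum _ fun k _ => ?_
    have h1 : ContinuousAt (fun y : E × ℂ => (pp fun i => ρ (y.1, β y.1 i)).coeff (k + m)) (x₁, (0 : ℂ)) :=
      ContinuousAt.comp (f := fun y : E × ℂ => y.1) (g := fun x => (pp fun i => ρ (x, β x i)).coeff (k + m)) (hcc (k + m)) continuousAt_fst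
    exact h1.tendsto.mul (continuousAt_snd.tendsto.pow k)
  have hQ0 : ∑ k ∈ Finset.range (n + 1), (pp fun i => ρ (x₁, β x₁ i)).coeff (k + m) * (0 : ℂ) ^ k ≠ 0 := by
    rw [Finset.sum_eq_single 0]
    · simpa using pp_ne (fun i => ρ (x₁, β x₁ i))
    · intro k _ hk
      simp [hk]
    · intro h
      simp at h
  -- a zero
  obtain ⟨i₀, -, hi₀⟩ := Finset.prod_eq_zero_iff.1 (hV x₁ hx₁).1
  have hw := R.lt x₁ hx₁U i₀
  have hσ : σ (x₁, β x₁ i₀) = 0 := (R.iff hx₁U hw.le).2 ⟨i₀, rfl⟩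
  have hf := hd x₁ hx₁U _ hw hσ
  have hρc : ContinuousAt ρ (x₁, β x₁ i₀) := (hρ x₁ hx₁U _ hw.le).continuousAt
  have hev : ∀ᶠ p : E × ℂ in 𝓝 (x₁, β x₁ i₀), ∑ k ∈ Finset.range (n + 1), (pp fun i => ρ (p.1, β p.1 i)).coeff (k + m) * (-ρ p) ^ k ≠ 0 := by
    have h1 : Tendsto (fun p : E × ℂ => (p.1, -ρ p)) (𝓝 (x₁, β x₁ i₀)) (𝓝 (x₁, (0 : ℂ))) := by
      have h2 : Tendsto (fun p : E × ℂ => -ρ p) (𝓝 (x₁, β x₁ i₀)) (𝓝 0) := by
        have := hρc.tendsto.neg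
        rwa [hi₀, neg_zero] at this
      exact continuousAt_fst.tendsto.prodMk_nhds h2
    exact (hQ.tendsto.comp h1).eventually_ne hQ0
  have hevV : ∀ᶠ p : E × ℂ in 𝓝 (x₁, β x₁ i₀), p.1 ∈ V := continuousAt_fst.eventually (hVo.mem_nhds hx₁)
  have hevr : ∀ᶠ p : E × ℂ in 𝓝 (x₁, β x₁ i₀), ‖p.2‖ < r := continuousAt_snd.norm.eventually (gt_mem_nhds hw)
  obtain ⟨p, ⟨hp1, hp2⟩, hp3, hp4, hp5⟩ := (hf.and_eventually (hev.and (hevV.and hevr))).exists
  obtain ⟨i, hi⟩ := (R.iff (hV p.1 hp4).2 hp5.le).1 (show σ (p.1, p.2) = 0 from hp1)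
  have h0 : ∏ i, (ρ (p.1, β p.1 i) + -ρ p) = 0 := by
    refine Finset.prod_eq_zero (Finset.mem_univ i) ?_
    rw [← hi]
    exact add_neg_cancel _
  rw [pp_dvd (fun i => ρ (p.1, β p.1 i)) (hmin p.1 hp4) (-ρ p)] at h0
  rcases mul_eq_zero.1 h0 with h | h
  · exact hp2 (neg_eq_zero.1 (eq_zero_of_pow_eq_zero h))
  · exact hp3 h

end Pool.Agent.G4.K
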