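import Pool.Agent.G4.K.Rs
import Pool.Agent.G4.K.Nz

/-!
# G4 K Co: existence of adapted coordinates

`d + 1 = k`.  A vector `e₂` with `σ (y + w e₂)` not `0` near `w = 0`; an isomorphism `ℂ^k × ℂ ≃ ℂ^(k+1)`, `(x, w) ↦ … + w e₂`; `r₂` small, `exists_rsys`; the norm `N x` of `ρ` (`norm_an`) is not `0` near `0` (`norm_ne`); `e₁ ∈ ℂ^k` with `N (v e₁)` not `0` near
`v = 0`; an isomorphism `ℂ^d × ℂ ≃ ℂ^k`, `(z, v) ↦ … + v e₁`; `r₁` small, `exists_rsys`.  Compose the isomorphisms (`RSys` is transported by the linear isomorphism of the parameters).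
-/

set_option autoImplicit false

open Topology Filter Metric

namespace Pool.Agent.G4.K

open Pool.Agent.AD (Vd)

/-- a direction in which an analytic function is not `0` -/
private theorem exists_dir {E : Type} [NormedAddCommGroup E] [NormedSpace ℂ E] {f : E → ℂ} {y : E} (hf : AnalyticAt ℂ f y) (h : ∃ᶠ z in 𝓝 y, f z ≠ 0) :
    ∃ e : E, ∀ᶠ w in 𝓝[≠] (0 : ℂ), f (y + w • e) ≠ 0 := by
  obtain ⟨r, hr, hB⟩ := Metric.eventually_nhds_iff_ball.1 hf.eventually_analyticAt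
  obtain ⟨z, hz, hzB⟩ := (h.and_eventually (ball_mem_nhds y hr)).exists
  refine ⟨z - y, ?_⟩
  have hline : ∀ w : ℂ, AnalyticAt ℂ (fun w : ℂ => y + w • (z - y)) w := fun w => by fun_prop
  set S : Set ℂ := (fun w : ℂ => y + w • (z - y)) ⁻¹' ball y r with hS
  have hSc : Convex ℝ S := by
    intro a ha b hb s t hs ht hst
    have ha' : ‖a • (z - y)‖ < r := by simpa [hS, mem_ball_iff_norm] using ha
    have hb' : ‖b • (z - y)‖ < r := by simpa [hS, mem_ball_iff_norm] using hb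
    have h1 : ‖(s • a + t • b) • (z - y)‖ ≤ s * ‖a • (z - y)‖ + t * ‖b • (z - y)‖ := by
      rw [add_smul, smul_assoc, smul_assoc]
      refine (norm_add_le _ _).trans (le_of_eq ?_)
      rw [norm_smul s (a • (z - y)), norm_smul t (b • (z - y)), Real.norm_of_nonneg hs, Real.norm_of_nonneg ht]
    have h2 : s * ‖a • (z - y)‖ + t * ‖b • (z - y)‖ < r := by
      rcases hs.eq_or_lt with h0 | h0
      · subst h0
        have : t = 1 := by linarith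
        subst this; simpa using hb'
      · nlinarith [mul_lt_mul_of_pos_left ha' h0, mul_le_mul_of_nonneg_left hb'.le ht]
    simpa [hS, mem_ball_iff_norm] using h1.trans_lt h2
  have h0S : (0 : ℂ) ∈ S := by simp [hS, hr]
  have h1S : (1 : ℂ) ∈ S := by simpa [hS] using hzB
  have han : AnalyticOnNhd ℂ (fun w : ℂ => f (y + w • (z - y))) S := fun w hw => (hB _ hw).comp_of_eq (hline w) rfl
  rcases (han 0 h0S).eventually_eq_zero_or_eventually_ne_zero with h2 | h2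
  · exact absurd (by simpa using han.eqOn_zero_of_preconnected_of_eventuallyEq_zero hSc.isPreconnected h0S h2 h1S) hz
  · exact h2

/-- linear coordinates `(x, w) ↦ … + w e` -/
private theorem exists_coord {E : Type} [NormedAddCommGroup E] [NormedSpace ℂ E] [FiniteDimensional ℂ E] {m : ℕ} (hm : Module.finrank ℂ E = m + 1) {e : E} (he : e ≠ 0) :
    ∃ T : (Vd m × ℂ) ≃L[ℂ] E, ∀ w : ℂ, T (0, w) = w • e := by
  obtain ⟨W, hW⟩ := Submodule.exists_isCompl (Submodule.span ℂ {e})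
  have h1 : Module.finrank ℂ (Submodule.span ℂ {e}) = 1 := finrank_span_singleton he
  have h2 : Module.finrank ℂ W = m := by
    have := Submodule.finrank_add_eq_of_isCompl hW
    omega
  have h3 : Module.finrank ℂ (Vd m) = Module.finrank ℂ W := by rw [h2]; simp
  let A : Vd m ≃ₗ[ℂ] W := LinearEquiv.ofFinrankEq _ _ h3
  let B : ℂ ≃ₗ[ℂ] Submodule.span ℂ {e} := LinearEquiv.toSpanNonzeroSingleton ℂ E e he
  let T : (Vd m × ℂ) ≃ₗ[ℂ] E := (A.prodCongr B).trans (Submodule.prodEquivOfIsCompl W (Submodule.span ℂ {e}) hW.symm)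
  refine ⟨T.toContinuousLinearEquiv, fun w => ?_⟩
  have h4 : (B w : E) = w • e := by simp [B]
  simp [T, h4]

/-- a small radius -/
private theorem exists_rad {f : ℂ → Prop} (h : ∀ᶠ w in 𝓝[≠] (0 : ℂ), f w) {c : ℝ} (hc : 0 < c) : ∃ r : ℝ, 0 < r ∧ r < c ∧ ∀ w : ℂ, ‖w‖ = r → f w := by
  rw [eventually_nhdsWithin_iff, Metric.eventually_nhds_iff_ball] at h
  obtain ⟨t, ht, h⟩ := h
  refine ⟨min t c / 2, by positivity, ?_, fun w hw => h w ?_ ?_⟩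
  · have := min_le_right t c
    have := lt_min ht hc
    linarith
  · rw [mem_ball_zero_iff, hw]
    have := min_le_left t c
    have := lt_min ht hc
    linarith
  · intro h0
    rw [h0, norm_zero] at hw
    have := lt_min ht hc
    linarith

private theorem RSys.mono {E : Type} [NormedAddCommGroup E] [NormedSpace ℂ E] {U U' : Set E} {r : ℝ} {σ : E × ℂ → ℂ} {n : ℕ} {β : E → Fin n → ℂ} (R : RSys U r σ β) (h : U' ⊆ U) (ho : IsOpen U') :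
    RSys U' r σ β :=
  ⟨ho, R.pos, fun x hx => R.an x (h hx), fun x hx => R.ne x (h hx), fun x hx => R.lt x (h hx), fun x hx => R.fac x (h hx)⟩

theorem exists_lc {k d : ℕ} (hk : d + 1 = k) {σ ρ : Vd (k + 1) → ℂ} {y : Vd (k + 1)} (hσ : AnalyticAt ℂ σ y) (hρ : AnalyticAt ℂ ρ y) (h1 : σ y = 0) (h2 : ρ y = 0)
    (h3 : ∃ᶠ z in 𝓝 y, σ z ≠ 0) (h4 : ∀ᶠ z in 𝓝 y, σ z = 0 → ∃ᶠ z' in 𝓝 z, σ z' = 0 ∧ ρ z' ≠ 0) {ε : ℝ} (hε : 0 < ε) :
    ∃ (L : ((Vd d × ℂ) × ℂ) ≃L[ℂ] Vd (k + 1)) (δ r₁ r₂ : ℝ) (U : Set (Vd d × ℂ)) (n₁ n₂ : ℕ) (α : Vd d → Fin n₁ → ℂ) (β : Vd d × ℂ → Fin n₂ → ℂ),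
      Lc (fun p => σ (y + L p)) (fun p => ρ (y + L p)) δ r₁ r₂ U α β ∧ ∀ p : (Vd d × ℂ) × ℂ, ‖p.1.1‖ < δ → ‖p.1.2‖ ≤ r₁ → ‖p.2‖ ≤ r₂ → ‖L p‖ < ε := by
  obtain ⟨e₂, he₂⟩ := exists_dir hσ h3
  have hne₂ : e₂ ≠ 0 := by
    rintro rfl
    obtain ⟨w, hw⟩ := he₂.exists
    simp [h1] at hw
  obtain ⟨T₂, hT₂⟩ := exists_coord (m := k) (by simp) hne₂
  -- the neighbourhood in which everything happens
  obtain ⟨η, hη, hB⟩ := Metric.eventually_nhds_iff_ball.1 ((hσ.eventually_analyticAt.and hρ.eventually_analyticAt).and h4)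
  have hcont : ∀ᶠ p in 𝓝 (0 : Vd k × ℂ), ‖T₂ p‖ < min η ε := by
    have : Tendsto (fun p => ‖T₂ p‖) (𝓝 0) (𝓝 0) := by
      have := (T₂.continuous.norm).tendsto (0 : Vd k × ℂ)
      simpa using this
    exact this.eventually (gt_mem_nhds (lt_min hη hε))
  obtain ⟨c₂, hc₂, hcB⟩ := Metric.eventually_nhds_iff_ball.1 hcont
  have hcB' : ∀ (x : Vd k) (w : ℂ), ‖x‖ < c₂ → ‖w‖ < c₂ → ‖T₂ (x, w)‖ < min η ε := fun x w hx hw =>
    hcB (x, w) (by rw [mem_ball_zero_iff, Prod.norm_def]; exact max_lt hx hw)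
  obtain ⟨r₂, hr₂, hr₂c, hr₂n⟩ := exists_rad he₂ hc₂
  have hmem : ∀ (x : Vd k) (w : ℂ), ‖x‖ < c₂ → ‖w‖ ≤ r₂ → y + T₂ (x, w) ∈ ball y η := fun x w hx hw => by
    rw [mem_ball_iff_norm, add_sub_cancel_left]
    exact (hcB' x w hx (hw.trans_lt hr₂c)).trans_le (min_le_left _ _)
  have haff : ∀ p : Vd k × ℂ, AnalyticAt ℂ (fun p => y + T₂ p) p := fun p => analyticAt_const.add (T₂.analyticAt p)
  have hσa : ∀ (x : Vd k) (w : ℂ), ‖x‖ < c₂ → ‖w‖ ≤ r₂ → AnalyticAt ℂ (fun p => σ (y + T₂ p)) (x, w) := fun x w hx hw =>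
    ((hB _ (hmem x w hx hw)).1.1).comp_of_eq (haff (x, w)) rfl
  have hρa : ∀ (x : Vd k) (w : ℂ), ‖x‖ < c₂ → ‖w‖ ≤ r₂ → AnalyticAt ℂ (fun p => ρ (y + T₂ p)) (x, w) := fun x w hx hw =>
    ((hB _ (hmem x w hx hw)).1.2).comp_of_eq (haff (x, w)) rfl
  have h0c : ‖(0 : Vd k)‖ < c₂ := by simpa using hc₂
  obtain ⟨δ₂, n₂, β, hδ₂, R₂⟩ := exists_rsys (σ := fun p : Vd k × ℂ => σ (y + T₂ p)) (x₀ := 0) hr₂ (fun w hw => hσa 0 w h0c hw) (fun w hw => by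
    simp only [hT₂]; exact hr₂n w hw)
  -- shrink the parameters
  set c : ℝ := min δ₂ c₂ with hc
  have hcpos : 0 < c := lt_min hδ₂ hc₂
  have hcx : ∀ x : Vd k, x ∈ ball (0 : Vd k) c → ‖x‖ < c₂ := fun x hx => (mem_ball_zero_iff.1 hx).trans_le (min_le_right _ _)
  have R₂' : RSys (ball (0 : Vd k) c) r₂ (fun p : Vd k × ℂ => σ (y + T₂ p)) β := R₂.mono (ball_subset_ball (min_le_left _ _)) isOpen_ball
  have hρU : ∀ x ∈ ball (0 : Vd k) c, ∀ w : ℂ, ‖w‖ ≤ r₂ → AnalyticAt ℂ (fun p => ρ (y + T₂ p)) (x, w) := fun x hx w hw => hρa x w (hcx x hx) hw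
  have hdU : ∀ x ∈ ball (0 : Vd k) c, ∀ w : ℂ, ‖w‖ < r₂ → σ (y + T₂ (x, w)) = 0 → ∃ᶠ p in 𝓝 (x, w), σ (y + T₂ p) = 0 ∧ ρ (y + T₂ p) ≠ 0 := by
    intro x hx w hw h0
    have h5 := (hB _ (hmem x w (hcx x hx) hw.le)).2 h0
    -- transport along the homeomorphism
    have h6 : Tendsto (fun z => T₂.symm (z - y)) (𝓝 (y + T₂ (x, w))) (𝓝 (x, w)) := by
      have : Continuous fun z => T₂.symm (z - y) := T₂.symm.continuous.comp (continuous_id.sub continuous_const)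
      have h7 := this.tendsto (y + T₂ (x, w))
      simpa using h7
    refine h6.frequently (h5.mono fun z' hz' => ?_)
    simpa using hz'
  have h0U : (0 : Vd k) ∈ ball (0 : Vd k) c := by simpa using hcpos
  -- the norm
  have hNan : ∀ x ∈ ball (0 : Vd k) c, AnalyticAt ℂ (fun x => ∏ j, ρ (y + T₂ (x, β x j))) x := R₂'.norm_an (F := fun p => ρ (y + T₂ p)) hρU
  have hNne : ∃ᶠ x in 𝓝 (0 : Vd k), ∏ j, ρ (y + T₂ (x, β x j)) ≠ 0 := R₂'.norm_ne (ρ := fun p => ρ (y + T₂ p)) hρU hdU h0U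
  obtain ⟨e₁, he₁⟩ := exists_dir (hNan 0 h0U) hNne
  have hN0 : ∏ j, ρ (y + T₂ ((0 : Vd k), β 0 j)) = 0 := by
    obtain ⟨j, hj⟩ := (R₂'.iff h0U (w := 0) (by simpa using hr₂.le)).1 (by
      have : T₂ ((0 : Vd k), (0 : ℂ)) = 0 := by rw [hT₂]; simp
      simp only [this, add_zero, h1])
    refine Finset.prod_eq_zero (Finset.mem_univ j) ?_
    rw [← hj, hT₂]
    simpa using h2
  have hne₁ : e₁ ≠ 0 := by
    rintro rfl
    obtain ⟨w, hw⟩ := he₁.exists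
    simp only [smul_zero, add_zero] at hw
    exact hw hN0
  obtain ⟨T₁, hT₁⟩ := exists_coord (m := d) (E := Vd k) (by simp [hk]) hne₁
  have hcont₁ : ∀ᶠ p in 𝓝 (0 : Vd d × ℂ), ‖T₁ p‖ < c := by
    have : Tendsto (fun p => ‖T₁ p‖) (𝓝 0) (𝓝 0) := by
      have := (T₁.continuous.norm).tendsto (0 : Vd d × ℂ)
      simpa using this
    exact this.eventually (gt_mem_nhds hcpos)
  obtain ⟨c₁, hc₁, hcB₁⟩ := Metric.eventually_nhds_iff_ball.1 hcont₁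
  have hcB₁' : ∀ (z : Vd d) (v : ℂ), ‖z‖ < c₁ → ‖v‖ < c₁ → T₁ (z, v) ∈ ball (0 : Vd k) c := fun z v hz hv => by
    rw [mem_ball_zero_iff]
    exact hcB₁ (z, v) (by rw [mem_ball_zero_iff, Prod.norm_def]; exact max_lt hz hv)
  obtain ⟨r₁, hr₁, hr₁c, hr₁n⟩ := exists_rad he₁ hc₁
  have hNan₁ : ∀ (z : Vd d) (v : ℂ), ‖z‖ < c₁ → ‖v‖ ≤ r₁ → AnalyticAt ℂ (fun x : Vd d × ℂ => ∏ j, ρ (y + T₂ (T₁ x, β (T₁ x) j))) (z, v) := fun z v hz hv =>
    (hNan _ (hcB₁' z v hz (hv.trans_lt hr₁c))).comp (T₁.analyticAt (z, v))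
  obtain ⟨δ₁, n₁, α, hδ₁, R₁⟩ := exists_rsys (σ := fun x : Vd d × ℂ => ∏ j, ρ (y + T₂ (T₁ x, β (T₁ x) j))) (x₀ := 0) hr₁
    (fun v hv => hNan₁ 0 v (by simpa using hc₁) hv) (fun v hv => by
      have := hr₁n v hv
      simp only [zero_add] at this
      simpa only [hT₁] using this)
  refine ⟨(T₁.prodCongr (ContinuousLinearEquiv.refl ℂ ℂ)).trans T₂, min δ₁ c₁, r₁, r₂, T₁ ⁻¹' ball 0 c, n₁, n₂, α, fun x => β (T₁ x), ⟨lt_min hδ₁ hc₁, ?_, ?_, ?_, ?_⟩, ?_⟩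
  · intro z hz v hv
    exact hcB₁' z v ((mem_ball_zero_iff.1 hz).trans_le (min_le_right _ _)) (hv.trans_lt hr₁c)
  · refine ⟨isOpen_ball.preimage T₁.continuous, hr₂, fun x hx w hw => ?_, fun x hx w hw => ?_, fun x hx i => R₂'.lt _ hx i, fun x hx => R₂'.fac _ hx⟩
    · have h5 := R₂'.an (T₁ x) hx w hw
      exact h5.comp_of_eq ((T₁.prodCongr (ContinuousLinearEquiv.refl ℂ ℂ)).analyticAt (x, w)) rfl
    · exact R₂'.ne (T₁ x) hx w hw
  · intro x hx w hw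
    have h5 := hρU (T₁ x) hx w hw
    exact h5.comp_of_eq ((T₁.prodCongr (ContinuousLinearEquiv.refl ℂ ℂ)).analyticAt (x, w)) rfl
  · exact R₁.mono (ball_subset_ball (min_le_left _ _)) isOpen_ball
  · intro p hp1 hp2 hp3
    have h5 : T₁ p.1 ∈ ball (0 : Vd k) c := hcB₁' p.1.1 p.1.2 (hp1.trans_le (min_le_right _ _)) (hp2.trans_lt hr₁c)
    exact (hcB' (T₁ p.1) p.2 (hcx _ h5) (hp3.trans_lt hr₂c)).trans_le (min_le_right _ _)

end Pool.Agent.G4.K
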