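import Pool.Agent.G4.Z.CDefs
import Pool.Agent.H22.HF.Par

/-!
# G4 K Defs: local complete intersections of codimension `2`, the Schwarz property; definitions

`RSys U r σ β`: for `x ∈ U` the numbers `β x i` are the zeros of `σ (x, ·)` in the disc of radius `r`, with multiplicities.  `Lc`: adapted coordinates `((z, v), w)` for the set `σ = 0 = ρ`: `w` is a zero of `σ ((z, v), ·)`, and `v` is a zero of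
the norm `∏ j, ρ ((z, v), β (z, v) j)`.  `Sw d Z`: near each point of `Z` there are, for every `T`, `s * T ^ d` linear conditions on holomorphic functions `G` under which `‖G‖` is on `Z` at most `C (3/4) ^ T` times its supremum on `Z`.
`CI Z`: near each of its points `Z` is `{σ = 0 = ρ}`, nowhere dense in `{σ = 0}`.
-/

set_option autoImplicit false

open Topology Filter Metric

namespace Pool.Agent.G4.K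

open Pool.Agent.AD (Vd)

/-- the zeros `β x i` of `σ (x, ·)` in the disc of radius `r` -/
structure RSys {E : Type} [NormedAddCommGroup E] [NormedSpace ℂ E] (U : Set E) (r : ℝ) (σ : E × ℂ → ℂ) {n : ℕ} (β : E → Fin n → ℂ) : Prop where
  op : IsOpen U
  pos : 0 < r
  an : ∀ x ∈ U, ∀ w : ℂ, ‖w‖ ≤ r → AnalyticAt ℂ σ (x, w)
  ne : ∀ x ∈ U, ∀ w : ℂ, ‖w‖ = r → σ (x, w) ≠ 0
  lt : ∀ x ∈ U, ∀ i, ‖β x i‖ < r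
  fac : ∀ x ∈ U, ∃ h : ℂ → ℂ, (∀ w : ℂ, ‖w‖ ≤ r → AnalyticAt ℂ h w ∧ h w ≠ 0) ∧ ∀ w : ℂ, ‖w‖ ≤ r → σ (x, w) = (∏ i, (w - β x i)) * h w

theorem RSys.iff {E : Type} [NormedAddCommGroup E] [NormedSpace ℂ E] {U : Set E} {r : ℝ} {σ : E × ℂ → ℂ} {n : ℕ} {β : E → Fin n → ℂ} (R : RSys U r σ β) {x : E} (hx : x ∈ U)
    {w : ℂ} (hw : ‖w‖ ≤ r) : σ (x, w) = 0 ↔ ∃ i, w = β x i := by
  obtain ⟨h, h1, h2⟩ := R.fac x hx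
  rw [h2 w hw, mul_eq_zero, or_iff_left (h1 w hw).2, Finset.prod_eq_zero_iff]
  simp [sub_eq_zero]

/-- adapted coordinates -/
structure Lc {d : ℕ} (σ ρ : (Vd d × ℂ) × ℂ → ℂ) (δ r₁ r₂ : ℝ) (U : Set (Vd d × ℂ)) {n₁ n₂ : ℕ} (α : Vd d → Fin n₁ → ℂ) (β : Vd d × ℂ → Fin n₂ → ℂ) : Prop where
  pos : 0 < δ
  sub : ∀ z ∈ ball (0 : Vd d) δ, ∀ v : ℂ, ‖v‖ ≤ r₁ → (z, v) ∈ U
  R2 : RSys U r₂ σ β
  an : ∀ x ∈ U, ∀ w : ℂ, ‖w‖ ≤ r₂ → AnalyticAt ℂ ρ (x, w)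
  R1 : RSys (ball (0 : Vd d) δ) r₁ (fun x : Vd d × ℂ => ∏ j, ρ (x, β x j)) α

/-- the Schwarz property -/
def Sw {k : ℕ} (d : ℕ) (Z : Set (Vd (k + 1))) : Prop :=
  ∀ y ∈ Z, ∃ (s : ℕ) (C : ℝ), 0 < C ∧ ∃ U ∈ 𝓝 y, ∀ T : ℕ, ∃ Φ : Fin s → (Fin d → Fin T) → (Vd (k + 1) → ℂ) → ℂ,
    (∀ i j (G G' : Vd (k + 1) → ℂ) (c : ℂ), (∀ z, AnalyticAt ℂ G z) → (∀ z, AnalyticAt ℂ G' z) → Φ i j (fun z => G z + c * G' z) = Φ i j G + c * Φ i j G') ∧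
    ∀ (G : Vd (k + 1) → ℂ) (S : ℝ), (∀ z, AnalyticAt ℂ G z) → (∀ z ∈ Z, ‖z - y‖ ≤ 1 → ‖G z‖ ≤ S) → (∀ i j, Φ i j G = 0) → ∀ z ∈ Z, z ∈ U → ‖G z‖ ≤ S * (C * (3 / 4) ^ T)

/-- local complete intersections of codimension `2` -/
def CI {k : ℕ} (Z : Set (Vd (k + 1))) : Prop :=
  ∀ y ∈ Z, ∃ σ ρ : Vd (k + 1) → ℂ, AnalyticAt ℂ σ y ∧ AnalyticAt ℂ ρ y ∧ (∃ᶠ z in 𝓝 y, σ z ≠ 0) ∧ (∀ᶠ z in 𝓝 y, (z ∈ Z ↔ σ z = 0 ∧ ρ z = 0)) ∧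
    ∀ᶠ z in 𝓝 y, σ z = 0 → ∃ᶠ z' in 𝓝 z, σ z' = 0 ∧ ρ z' ≠ 0

/-- local equations: near the points of `D`, `D = {s = 0}`, `B = {s = t = 0}`, `ds ≠ 0` at the points of `D \ B`, which are dense in `D` -/
def Leq {k : ℕ} (D B : Set (Vd (k + 1))) : Prop :=
  D ⊆ closure (D \ B) ∧ ∀ y ∈ D, ∃ s t : Vd (k + 1) → ℂ, AnalyticAt ℂ s y ∧ AnalyticAt ℂ t y ∧
    ∀ᶠ z in 𝓝 y, (z ∈ D ↔ s z = 0) ∧ (z ∈ B ↔ s z = 0 ∧ t z = 0) ∧ (z ∈ D → z ∉ B → fderiv ℂ s z ≠ 0)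

end Pool.Agent.G4.K
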