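import Pool.Agent.G4.K.Sy

/-!
# G4 K Dv: division with remainder

`P x ζ = ∏ i, (ζ - β x i) = ∑ k, c k x ζ ^ k`, the `c k` are analytic on `U` (interpolation: `c k x` is a fixed linear combination of the values `P x 0, …, P x n`, which are analytic by `norm_an`).
`A j G x = (2 π i)⁻¹ ∮ ζ in C(0, r), G (x, ζ) B j x ζ / P x ζ` with `B j x ζ = ∑ k > j, c k x * ζ ^ (k - 1 - j)`, so that `∑ j, A j G x w ^ j = (2 π i)⁻¹ ∮ G (x, ζ) (P x ζ - P x w) / (P x ζ (ζ - w))`, which is `G (x, w)` if `P x w = 0` (Cauchy).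
-/

set_option autoImplicit false

open Topology Filter Metric

namespace Pool.Agent.G4.K

open Pool.Agent.AD (Vd)

private noncomputable def pol {n : ℕ} (b : Fin n → ℂ) : Polynomial ℂ := ∏ i, (Polynomial.X - Polynomial.C (b i))

private theorem pol_eval {n : ℕ} (b : Fin n → ℂ) (z : ℂ) : (pol b).eval z = ∏ i, (z - b i) := by
  simp [pol, Polynomial.eval_prod]

private theorem pol_deg {n : ℕ} (b : Fin n → ℂ) : (pol b).natDegree = n := by
  rw [pol, Polynomial.natDegree_prod_of_monic _ _ (fun i _ => Polynomial.monic_X_sub_C _)]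
  simp

private theorem pol_sum {n : ℕ} (b : Fin n → ℂ) (z : ℂ) : ∏ i, (z - b i) = ∑ k ∈ Finset.range (n + 1), (pol b).coeff k * z ^ k := by
  rw [← pol_eval, Polynomial.eval_eq_sum_range, pol_deg]

private theorem coeff_eq {n : ℕ} (b : Fin n → ℂ) (k : ℕ) : (pol b).coeff k =
    ∑ j ∈ Finset.range (n + 1), (∏ i, ((j : ℂ) - b i)) * (Lagrange.basis (Finset.range (n + 1)) (fun j : ℕ => (j : ℂ)) j).coeff k := by
  have h := Lagrange.eq_interpolate (s := Finset.range (n + 1)) (v := fun j : ℕ => (j : ℂ)) (f := pol b)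
    (fun a _ b _ hab => Nat.cast_injective hab) (by
      refine Polynomial.degree_le_natDegree.trans_lt ?_
      rw [pol_deg, Finset.card_range]
      exact_mod_cast Nat.lt_succ_self n)
  conv_lhs => rw [h]
  rw [Lagrange.interpolate_apply, Polynomial.finsetSum_coeff]
  refine Finset.sum_congr rfl fun j _ => ?_
  rw [Polynomial.coeff_C_mul, pol_eval]

private noncomputable def Bj {n : ℕ} (b : Fin n → ℂ) (j : ℕ) (ζ : ℂ) : ℂ :=
  ∑ k ∈ Finset.range (n + 1), if j < k then (pol b).coeff k * ζ ^ (k - 1 - j) else 0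

private theorem Bj_sum {n : ℕ} (b : Fin n → ℂ) {w : ℂ} (hw : ∏ i, (w - b i) = 0) (ζ : ℂ) :
    (∑ j : Fin n, Bj b j ζ * w ^ (j : ℕ)) * (ζ - w) = ∏ i, (ζ - b i) := by
  have h1 : ∏ i, (ζ - b i) = ∏ i, (ζ - b i) - ∏ i, (w - b i) := by rw [hw, sub_zero]
  rw [h1, pol_sum, pol_sum, ← Finset.sum_sub_distrib]
  simp only [Bj, Finset.sum_mul]
  rw [Finset.sum_comm]
  refine Finset.sum_congr rfl fun k hk => ?_
  have hk' : k ≤ n := Nat.lt_succ_iff.1 (Finset.mem_range.1 hk)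
  rw [Fin.sum_univ_eq_sum_range (fun j => (if j < k then (pol b).coeff k * ζ ^ (k - 1 - j) else 0) * w ^ j * (ζ - w)) n]
  rw [← Finset.sum_subset (Finset.range_subset_range.2 hk') (fun j _ hj => by
    rw [if_neg (by simpa using hj)]; simp)]
  have h2 := geom_sum₂_mul w ζ k
  have h3 : ∑ j ∈ Finset.range k, (if j < k then (pol b).coeff k * ζ ^ (k - 1 - j) else 0) * w ^ j * (ζ - w) =
      -((pol b).coeff k * ((∑ j ∈ Finset.range k, w ^ j * ζ ^ (k - 1 - j)) * (w - ζ))) := by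
    rw [Finset.sum_mul, Finset.mul_sum, ← Finset.sum_neg_distrib]
    refine Finset.sum_congr rfl fun j hj => ?_
    rw [if_pos (Finset.mem_range.1 hj)]
    ring
  rw [h3, h2]
  ring

variable {E : Type} [NormedAddCommGroup E] [NormedSpace ℂ E] [FiniteDimensional ℂ E] {U : Set E} {r : ℝ} {σ : E × ℂ → ℂ} {n : ℕ} {β : E → Fin n → ℂ}

private theorem coeff_an (R : RSys U r σ β) (k : ℕ) {x : E} (hx : x ∈ U) : AnalyticAt ℂ (fun x => (pol (β x)).coeff k) x := by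
  have h : (fun x => (pol (β x)).coeff k) = fun x => ∑ j ∈ Finset.range (n + 1), (∏ i, ((j : ℂ) - β x i)) *
      (Lagrange.basis (Finset.range (n + 1)) (fun j : ℕ => (j : ℂ)) j).coeff k := funext fun x => coeff_eq _ _
  rw [h]
  refine Finset.analyticAt_fun_sum _ fun j _ => ?_
  exact (R.norm_an (F := fun p => (j : ℂ) - p.2) (fun x _ w _ => analyticAt_const.sub analyticAt_snd) x hx).mul analyticAt_const

private theorem P_an (R : RSys U r σ β) {x : E} (hx : x ∈ U) (ζ : ℂ) : AnalyticAt ℂ (fun p : E × ℂ => ∏ i, (p.2 - β p.1 i)) (x, ζ) := by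
  have h : (fun p : E × ℂ => ∏ i, (p.2 - β p.1 i)) = fun p => ∑ k ∈ Finset.range (n + 1), (pol (β p.1)).coeff k * p.2 ^ k := funext fun p => pol_sum _ _
  rw [h]
  refine Finset.analyticAt_fun_sum _ fun k _ => ?_
  exact ((coeff_an R k hx).comp_of_eq (analyticAt_fst (p := (x, ζ))) rfl).mul (analyticAt_snd.pow k)

private theorem B_an (R : RSys U r σ β) (j : ℕ) {x : E} (hx : x ∈ U) (ζ : ℂ) : AnalyticAt ℂ (fun p : E × ℂ => Bj (β p.1) j p.2) (x, ζ) := by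
  unfold Bj
  refine Finset.analyticAt_fun_sum _ fun k _ => ?_
  by_cases h : j < k
  · simp only [if_pos h]
    exact ((coeff_an R k hx).comp_of_eq (analyticAt_fst (p := (x, ζ))) rfl).mul (analyticAt_snd.pow _)
  · simp only [if_neg h]
    exact analyticAt_const

omit [FiniteDimensional ℂ E] in
private theorem P_ne (R : RSys U r σ β) {x : E} (hx : x ∈ U) {ζ : ℂ} (hζ : ζ ∈ sphere (0 : ℂ) r) : ∏ i, (ζ - β x i) ≠ 0 := by
  rw [Finset.prod_ne_zero_iff]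
  intro i _ h
  have h1 := R.lt x hx i
  rw [← sub_eq_zero.1 h, mem_sphere_zero_iff_norm.1 hζ] at h1
  exact lt_irrefl _ h1

private theorem int_an (R : RSys U r σ β) (j : ℕ) {G : E × ℂ → ℂ} (hG : ∀ x ∈ U, ∀ w : ℂ, ‖w‖ ≤ r → AnalyticAt ℂ G (x, w)) {x : E} (hx : x ∈ U) :
    ∀ ζ ∈ sphere (0 : ℂ) r, AnalyticAt ℂ (fun p : E × ℂ => G p * (Bj (β p.1) j p.2 / ∏ i, (p.2 - β p.1 i))) (x, ζ) := by
  intro ζ hζ
  have h1 : ‖ζ‖ ≤ r := (mem_sphere_zero_iff_norm.1 hζ).le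
  exact (hG x hx ζ h1).mul ((B_an R j hx ζ).div (P_an R hx ζ) (P_ne R hx hζ))

private theorem int_ok (R : RSys U r σ β) (j : ℕ) {G : E × ℂ → ℂ} (hG : ∀ x ∈ U, ∀ w : ℂ, ‖w‖ ≤ r → AnalyticAt ℂ G (x, w)) {x : E} (hx : x ∈ U) :
    CircleIntegrable (fun ζ => G (x, ζ) * (Bj (β x) j ζ / ∏ i, (ζ - β x i))) 0 r := by
  refine ContinuousOn.circleIntegrable R.pos.le ?_
  intro ζ hζ
  have h1 := (int_an R j hG hx ζ hζ).continuousAt
  exact (h1.comp (f := fun ζ : ℂ => (x, ζ)) (Continuous.prodMk_right x).continuousAt).continuousWithinAt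

theorem RSys.div (R : RSys U r σ β) : ∃ A : Fin n → (E × ℂ → ℂ) → E → ℂ,
    (∀ j (G : E × ℂ → ℂ), (∀ x ∈ U, ∀ w : ℂ, ‖w‖ ≤ r → AnalyticAt ℂ G (x, w)) → ∀ x ∈ U, AnalyticAt ℂ (A j G) x) ∧
    (∀ j (G G' : E × ℂ → ℂ) (c : ℂ), (∀ x ∈ U, ∀ w : ℂ, ‖w‖ ≤ r → AnalyticAt ℂ G (x, w)) → (∀ x ∈ U, ∀ w : ℂ, ‖w‖ ≤ r → AnalyticAt ℂ G' (x, w)) →
      ∀ x ∈ U, A j (fun p => G p + c * G' p) x = A j G x + c * A j G' x) ∧
    (∀ j (G G' : E × ℂ → ℂ), ∀ x ∈ U, (∀ w : ℂ, ‖w‖ ≤ r → G (x, w) = G' (x, w)) → A j G x = A j G' x) ∧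
    ∀ G : E × ℂ → ℂ, (∀ x ∈ U, ∀ w : ℂ, ‖w‖ ≤ r → AnalyticAt ℂ G (x, w)) → ∀ x ∈ U, ∀ i, G (x, β x i) = ∑ j, A j G x * β x i ^ (j : ℕ) := by
  refine ⟨fun j G x => (2 * (Real.pi : ℂ) * Complex.I)⁻¹ * ∮ ζ in C(0, r), G (x, ζ) * (Bj (β x) j ζ / ∏ i, (ζ - β x i)), ?_, ?_, ?_, ?_⟩
  · intro j G hG x hx
    exact analyticAt_const.mul (Pool.Agent.H22.HF.analyticAt_circleIntegral (F := fun p : E × ℂ => G p * (Bj (β p.1) j p.2 / ∏ i, (p.2 - β p.1 i))) R.pos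
      (int_an R j hG hx))
  · intro j G G' c hG hG' x hx
    have h1 : (∮ ζ in C(0, r), (fun p : E × ℂ => G p + c * G' p) (x, ζ) * (Bj (β x) j ζ / ∏ i, (ζ - β x i))) =
        (∮ ζ in C(0, r), G (x, ζ) * (Bj (β x) j ζ / ∏ i, (ζ - β x i))) + c * ∮ ζ in C(0, r), G' (x, ζ) * (Bj (β x) j ζ / ∏ i, (ζ - β x i)) := by
      rw [← circleIntegral.integral_const_mul, ← circleIntegral.integral_add (int_ok R j hG hx) (by
        simpa [CircleIntegrable, mul_assoc] using (int_ok R j hG' hx).const_mul c)]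
      refine circleIntegral.integral_congr R.pos.le fun ζ _ => ?_
      ring
    change (2 * (Real.pi : ℂ) * Complex.I)⁻¹ * (∮ ζ in C(0, r), (fun p : E × ℂ => G p + c * G' p) (x, ζ) * (Bj (β x) j ζ / ∏ i, (ζ - β x i))) = _
    rw [h1]
    ring
  · intro j G G' x _ h
    have h1 : (∮ ζ in C(0, r), G (x, ζ) * (Bj (β x) j ζ / ∏ i, (ζ - β x i))) = ∮ ζ in C(0, r), G' (x, ζ) * (Bj (β x) j ζ / ∏ i, (ζ - β x i)) := by
      refine circleIntegral.integral_congr R.pos.le fun ζ hζ => ?_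
      rw [h ζ (mem_sphere_zero_iff_norm.1 hζ).le]
    change _ * (∮ ζ in C(0, r), G (x, ζ) * (Bj (β x) j ζ / ∏ i, (ζ - β x i))) = _
    rw [h1]
  · intro G hG x hx i
    have hw : ∏ l, (β x i - β x l) = 0 := Finset.prod_eq_zero (Finset.mem_univ i) (sub_self _)
    have hpi : (2 * (Real.pi : ℂ) * Complex.I) ≠ 0 := by
      simp [Real.pi_ne_zero]
    have h1 : (∮ ζ in C(0, r), (ζ - β x i)⁻¹ • G (x, ζ)) = (2 * (Real.pi : ℂ) * Complex.I) • G (x, β x i) := by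
      refine DiffContOnCl.circleIntegral_sub_inv_smul ?_ ?_
      · refine DifferentiableOn.diffContOnCl ?_
        rw [closure_ball _ R.pos.ne']
        intro ζ hζ
        have h2 := (hG x hx ζ (mem_closedBall_zero_iff.1 hζ)).differentiableAt
        exact (h2.comp (f := fun ζ : ℂ => (x, ζ)) ζ ((differentiableAt_const _).prodMk differentiableAt_id)).differentiableWithinAt
      · exact mem_ball_zero_iff.2 (R.lt x hx i)
    have h2 : (∮ ζ in C(0, r), (ζ - β x i)⁻¹ • G (x, ζ)) = ∮ ζ in C(0, r), ∑ j : Fin n, G (x, ζ) * (Bj (β x) j ζ / ∏ i, (ζ - β x i)) * β x i ^ (j : ℕ) := by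
      refine circleIntegral.integral_congr R.pos.le fun ζ hζ => ?_
      have h3 := Bj_sum (β x) hw ζ
      have h4 := P_ne R hx hζ
      have h5 : ζ - β x i ≠ 0 := by
        intro h6
        exact h4 (Finset.prod_eq_zero (Finset.mem_univ i) h6)
      change (ζ - β x i)⁻¹ * G (x, ζ) = ∑ j : Fin n, G (x, ζ) * (Bj (β x) j ζ / ∏ i, (ζ - β x i)) * β x i ^ (j : ℕ)
      have h6 : ∑ j : Fin n, G (x, ζ) * (Bj (β x) j ζ / ∏ i, (ζ - β x i)) * β x i ^ (j : ℕ) =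
          G (x, ζ) * ((∑ j : Fin n, Bj (β x) j ζ * β x i ^ (j : ℕ)) / ∏ i, (ζ - β x i)) := by
        rw [Finset.sum_div, Finset.mul_sum]
        refine Finset.sum_congr rfl fun j _ => ?_
        ring
      rw [h6, mul_comm, ← h3]
      congr 1
      have h7 : (∑ j : Fin n, Bj (β x) j ζ * β x i ^ (j : ℕ)) ≠ 0 := by
        intro h8
        rw [h8, zero_mul] at h3
        exact h4 h3.symm
      field_simp
    rw [h2, circleIntegral.integral_fun_sum (fun j _ => by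
      simpa [CircleIntegrable] using (int_ok R j hG hx).mul_const (β x i ^ (j : ℕ)))] at h1
    change G (x, β x i) = ∑ j : Fin n, (2 * (Real.pi : ℂ) * Complex.I)⁻¹ * (∮ ζ in C(0, r), G (x, ζ) * (Bj (β x) j ζ / ∏ i, (ζ - β x i))) * β x i ^ (j : ℕ)
    rw [← inv_mul_cancel_left₀ hpi (G (x, β x i)), ← smul_eq_mul (2 * (Real.pi : ℂ) * Complex.I), ← h1, Finset.mul_sum]
    refine Finset.sum_congr rfl fun j _ => ?_
    have h9 : (∮ ζ in C(0, r), G (x, ζ) * (Bj (β x) j ζ / ∏ i, (ζ - β x i)) * β x i ^ (j : ℕ)) =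
        β x i ^ (j : ℕ) * ∮ ζ in C(0, r), G (x, ζ) * (Bj (β x) j ζ / ∏ i, (ζ - β x i)) := by
      rw [← circleIntegral.integral_const_mul]
      refine circleIntegral.integral_congr R.pos.le fun ζ _ => ?_
      exact mul_comm (G (x, ζ) * (Bj (β x) j ζ / ∏ i, (ζ - β x i))) (β x i ^ (j : ℕ))
    rw [h9]
    ring

end Pool.Agent.G4.K
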