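import Pool.Agent.G4.K.Defs

/-!
# G4 K E1: in one variable a local complete intersection of codimension `2` is empty

`Vd 1 = Fin 1 → ℂ`.  The zeros of `σ` near `y` are isolated (`∃ᶠ z, σ z ≠ 0`), so near `y` the only zero is `y`, and `∃ᶠ z' in 𝓝 y, σ z' = 0 ∧ ρ z' ≠ 0` gives `ρ y ≠ 0`.
-/

set_option autoImplicit false

open Topology Filter Metric

namespace Pool.Agent.G4.K

open Pool.Agent.AD (Vd)

private theorem fin_one (i : Fin (0 + 1)) : i = 0 := by
  omega

private theorem isolated_zero {y : Vd (0 + 1)} {σ : Vd (0 + 1) → ℂ} (hσ : AnalyticAt ℂ σ y) (hne : ∃ᶠ z in 𝓝 y, σ z ≠ 0) : ∀ᶠ z in 𝓝 y, σ z = 0 → z = y := by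
  let L : ℂ →L[ℂ] Vd (0 + 1) := ContinuousLinearMap.pi (fun _ => ContinuousLinearMap.id ℂ ℂ)
  have hL : ∀ w, L w = fun _ => w := fun w => rfl
  have hLy : L (y 0) = y := by
    funext i
    rw [hL, fin_one i]
  have hLz : ∀ z : Vd (0 + 1), L (z 0) = z := by
    intro z
    funext i
    rw [hL, fin_one i]
  have hc : Continuous (fun z : Vd (0 + 1) => z 0) := continuous_apply 0
  have ht : Tendsto (fun z : Vd (0 + 1) => z 0) (𝓝 y) (𝓝 (y 0)) := hc.tendsto y
  have han : AnalyticAt ℂ (fun w : ℂ => σ (L w)) (y 0) := by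
    have h1 : AnalyticAt ℂ σ (L (y 0)) := by rw [hLy]; exact hσ
    exact h1.comp (L.analyticAt (y 0))
  rcases han.eventually_eq_zero_or_eventually_ne_zero with h0 | h0
  · exfalso
    apply hne
    filter_upwards [ht.eventually h0] with z hz
    rw [hLz] at hz
    exact not_not.mpr hz
  · rw [eventually_nhdsWithin_iff] at h0
    filter_upwards [ht.eventually h0] with z hz hz0
    by_contra hzy
    apply hz
    · intro hz1
      apply hzy
      rw [← hLz z, ← hLz y]
      rw [Set.mem_singleton_iff] at hz1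
      rw [hz1]
    · rw [hLz]
      exact hz0

theorem ci_one {Z : Set (Vd (0 + 1))} (h : CI Z) : Z = ∅ := by
  rw [Set.eq_empty_iff_forall_notMem]
  intro y hy
  obtain ⟨σ, ρ, hσ, -, hne, hZ, hfr⟩ := h y hy
  have h1 : σ y = 0 ∧ ρ y = 0 := hZ.self_of_nhds.mp hy
  have h2 := hfr.self_of_nhds h1.1
  have h3 := isolated_zero hσ hne
  obtain ⟨z, hz, hz'⟩ := (h2.and_eventually h3).exists
  have h4 : z = y := hz' hz.1
  rw [h4] at hz
  exact hz.2 h1.2

end Pool.Agent.G4.K
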