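import Pool.Agent.G4.K.Rs
import Pool.Agent.G4.K.Sy

/-!
# G4 K Hz: zeros persist

`hz` (Hurwitz): `f (x₀, w₀) = 0`, `f (x₀, ·)` not `0` near `w₀`, `w ≠ w₀`: for `x` near `x₀` the function `f (x, ·)` has a zero near `w₀` (otherwise the maximum principle for `1 / f (x, ·)` on a disc bounds `‖f (x, w₀)‖` below by the minimum of `‖f (x, ·)‖` on the
circle).  `opn`: the common zeros `((z, v), w)` of `σ`, `ρ` persist: root system of `σ` around `w = b` with a small radius (`exists_rsys` for `σ (x, b + w)`), the norm of `ρ` (`norm_an`), and `hz` for the norm.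
-/

set_option autoImplicit false

open Topology Filter Metric

namespace Pool.Agent.G4.K

open Pool.Agent.AD (Vd)

variable {E : Type} [NormedAddCommGroup E] [NormedSpace ℂ E] [FiniteDimensional ℂ E]

/-- shift of the last variable -/
private theorem shift_an {f : E × ℂ → ℂ} {b : ℂ} {x : E} {w : ℂ} (h : AnalyticAt ℂ f (x, b + w)) :
    AnalyticAt ℂ (fun y : E × ℂ => f (y.1, b + y.2)) (x, w) := by
  have hg : AnalyticAt ℂ (fun y : E × ℂ => ((y.1, b + y.2) : E × ℂ)) (x, w) :=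
    analyticAt_fst.prod (analyticAt_const.add analyticAt_snd)
  exact AnalyticAt.comp' (g := f) (f := fun y : E × ℂ => ((y.1, b + y.2) : E × ℂ)) h hg

private theorem an_near {f : E × ℂ → ℂ} {x₀ : E} {b : ℂ} (hf : AnalyticAt ℂ f (x₀, b)) :
    ∃ η > 0, ∀ x : E, ‖x - x₀‖ < η → ∀ w : ℂ, ‖w‖ < η → AnalyticAt ℂ f (x, b + w) := by
  obtain ⟨η, hη, h⟩ := Metric.eventually_nhds_iff.1 hf.eventually_analyticAt
  refine ⟨η, hη, fun x hx w hw => h ?_⟩
  rw [Prod.dist_eq, max_lt_iff, dist_eq_norm, dist_eq_norm]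
  exact ⟨hx, by simpa using hw⟩

theorem hz {f : E × ℂ → ℂ} {x₀ : E} {w₀ : ℂ} (hf : AnalyticAt ℂ f (x₀, w₀)) (h0 : f (x₀, w₀) = 0) (hne : ∀ᶠ w in 𝓝[≠] w₀, f (x₀, w) ≠ 0) {ε : ℝ} (hε : 0 < ε) :
    ∀ᶠ x in 𝓝 x₀, ∃ w, ‖w - w₀‖ < ε ∧ f (x, w) = 0 := by
  obtain ⟨η, hη, h1⟩ := an_near hf
  rw [eventually_nhdsWithin_iff, Metric.eventually_nhds_iff] at hne
  obtain ⟨η', hη', h2⟩ := hne
  set r : ℝ := min (min η η') ε / 2 with hr
  have hm : 0 < min (min η η') ε := lt_min (lt_min hη hη') hε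
  have hr0 : 0 < r := by
    rw [hr]
    linarith
  have hr1 : r < η := by
    have : min (min η η') ε ≤ η := (min_le_left _ _).trans (min_le_left _ _)
    rw [hr]
    linarith
  have hr2 : r < η' := by
    have : min (min η η') ε ≤ η' := (min_le_left _ _).trans (min_le_right _ _)
    rw [hr]
    linarith
  have hr3 : r < ε := by
    have : min (min η η') ε ≤ ε := min_le_right _ _
    rw [hr]
    linarith
  obtain ⟨δ, n, β, hδ, R⟩ := exists_rsys (σ := fun y : E × ℂ => f (y.1, w₀ + y.2)) (x₀ := x₀) hr0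
    (fun w hw => shift_an (h1 x₀ (by simpa using hη) w (lt_of_le_of_lt hw hr1)))
    (fun w hw => h2 (by rw [dist_eq_norm, add_sub_cancel_left, hw]; exact hr2) (by
      intro h3
      have h4 : w = 0 := by
        have h5 : w₀ + w = w₀ := h3
        simpa using h5
      rw [h4, norm_zero] at hw
      exact hr0.ne hw))
  have hx₀ : x₀ ∈ ball x₀ δ := mem_ball_self hδ
  have h3 : (fun y : E × ℂ => f (y.1, w₀ + y.2)) (x₀, 0) = 0 := by
    show f (x₀, w₀ + 0) = 0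
    rw [add_zero]
    exact h0
  obtain ⟨i, _⟩ := (R.iff hx₀ (by simpa using hr0.le)).1 h3
  refine Filter.mem_of_superset (ball_mem_nhds x₀ hδ) fun x hx => ?_
  refine ⟨w₀ + β x i, ?_, ?_⟩
  · rw [add_sub_cancel_left]
    exact (R.lt x hx i).trans hr3
  · exact (R.iff hx (R.lt x hx i).le).2 ⟨i, rfl⟩

/-- a smaller base -/
private theorem rsys_mono {U U' : Set E} {r : ℝ} {σ : E × ℂ → ℂ} {n : ℕ} {β : E → Fin n → ℂ}
    (R : RSys U r σ β) (hU : IsOpen U') (h : U' ⊆ U) : RSys U' r σ β :=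
  ⟨hU, R.pos, fun x hx => R.an x (h hx), fun x hx => R.ne x (h hx), fun x hx => R.lt x (h hx),
    fun x hx => R.fac x (h hx)⟩

theorem opn {σ ρ : (E × ℂ) × ℂ → ℂ} {z₀ : E} {a b : ℂ} (hσ : AnalyticAt ℂ σ ((z₀, a), b)) (hρ : AnalyticAt ℂ ρ ((z₀, a), b)) (h1 : σ ((z₀, a), b) = 0) (h2 : ρ ((z₀, a), b) = 0)
    (h3 : ∀ᶠ w in 𝓝[≠] b, σ ((z₀, a), w) ≠ 0) {ε₀ : ℝ} (hε₀ : 0 < ε₀) (h4 : ∀ᶠ v in 𝓝[≠] a, ∀ w : ℂ, ‖w - b‖ < ε₀ → σ ((z₀, v), w) = 0 → ρ ((z₀, v), w) ≠ 0) {ε : ℝ} (hε : 0 < ε) :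
    ∀ᶠ z in 𝓝 z₀, ∃ v w : ℂ, ‖v - a‖ < ε ∧ ‖w - b‖ < ε ∧ σ ((z, v), w) = 0 ∧ ρ ((z, v), w) = 0 := by
  obtain ⟨η, hη, k1⟩ := an_near hσ
  obtain ⟨η', hη', k2⟩ := an_near hρ
  rw [eventually_nhdsWithin_iff, Metric.eventually_nhds_iff] at h3
  obtain ⟨η'', hη'', k3⟩ := h3
  set m : ℝ := min (min (min η η') η'') (min ε ε₀) with hmdef
  have hm : 0 < m := lt_min (lt_min (lt_min hη hη') hη'') (lt_min hε hε₀)
  have m1 : m ≤ η := (min_le_left _ _).trans ((min_le_left _ _).trans (min_le_left _ _))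
  have m2 : m ≤ η' := (min_le_left _ _).trans ((min_le_left _ _).trans (min_le_right _ _))
  have m3 : m ≤ η'' := (min_le_left _ _).trans (min_le_right _ _)
  have m4 : m ≤ ε := (min_le_right _ _).trans (min_le_left _ _)
  have m5 : m ≤ ε₀ := (min_le_right _ _).trans (min_le_right _ _)
  have hr0 : 0 < m / 2 := by linarith
  obtain ⟨δ, n, β, hδ, R⟩ := exists_rsys (σ := fun y : (E × ℂ) × ℂ => σ (y.1, b + y.2))
    (x₀ := (z₀, a)) hr0
    (fun w hw => shift_an (k1 (z₀, a) (by simpa using hη) w (by linarith)))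
    (fun w hw => k3 (by rw [dist_eq_norm, add_sub_cancel_left, hw]; linarith) (by
      intro h5
      have h6 : w = 0 := by
        have h7 : b + w = b := h5
        simpa using h7
      rw [h6, norm_zero] at hw
      exact hr0.ne hw))
  set δ' : ℝ := min δ m with hδ'
  have hδ'0 : 0 < δ' := lt_min hδ hm
  have R' := rsys_mono R (isOpen_ball (x := ((z₀, a) : E × ℂ)) (ε := δ'))
    (ball_subset_ball (min_le_left _ _))
  set N : E × ℂ → ℂ := fun x => ∏ i, (fun y : (E × ℂ) × ℂ => ρ (y.1, b + y.2)) (x, β x i) with hN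
  have hNan : ∀ x ∈ ball ((z₀, a) : E × ℂ) δ', AnalyticAt ℂ N x := by
    refine R'.norm_an fun x hx w hw => shift_an (k2 x ?_ w (by linarith))
    rw [mem_ball, dist_eq_norm] at hx
    have : δ' ≤ m := min_le_right _ _
    linarith
  have hx₀ : ((z₀, a) : E × ℂ) ∈ ball ((z₀, a) : E × ℂ) δ' := mem_ball_self hδ'0
  have e1 : (fun y : (E × ℂ) × ℂ => σ (y.1, b + y.2)) ((z₀, a), 0) = 0 := by
    show σ ((z₀, a), b + 0) = 0
    rw [add_zero]
    exact h1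
  obtain ⟨i, hi⟩ := (R'.iff hx₀ (by simpa using hr0.le)).1 e1
  have hN0 : N (z₀, a) = 0 := by
    rw [hN]
    refine Finset.prod_eq_zero (Finset.mem_univ i) ?_
    show ρ ((z₀, a), b + β (z₀, a) i) = 0
    rw [← hi, add_zero]
    exact h2
  have hNne : ∀ᶠ v in 𝓝[≠] a, N (z₀, v) ≠ 0 := by
    have h5 : ∀ᶠ v in 𝓝[≠] a, v ∈ ball a δ' :=
      Filter.Eventually.filter_mono nhdsWithin_le_nhds (ball_mem_nhds a hδ'0)
    refine (h4.and h5).mono fun v hv => ?_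
    have hx : ((z₀, v) : E × ℂ) ∈ ball ((z₀, a) : E × ℂ) δ' := by
      rw [mem_ball, Prod.dist_eq, dist_self, max_lt_iff]
      exact ⟨hδ'0, hv.2⟩
    rw [hN]
    refine Finset.prod_ne_zero_iff.2 fun j _ => ?_
    refine hv.1 (b + β (z₀, v) j) ?_ ((R'.iff hx (R'.lt _ hx j).le).2 ⟨j, rfl⟩)
    rw [add_sub_cancel_left]
    have := R'.lt _ hx j
    linarith
  have h6 := hz (hNan _ hx₀) hN0 hNne (lt_min hε hδ'0)
  have h7 : ∀ᶠ z in 𝓝 z₀, z ∈ ball z₀ δ' := ball_mem_nhds z₀ hδ'0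
  refine (h6.and h7).mono ?_
  rintro z ⟨⟨v, hv, hNv⟩, hz'⟩
  have hx : ((z, v) : E × ℂ) ∈ ball ((z₀, a) : E × ℂ) δ' := by
    rw [mem_ball, Prod.dist_eq, max_lt_iff]
    exact ⟨hz', by rw [dist_eq_norm]; exact hv.trans_le (min_le_right _ _)⟩
  rw [hN] at hNv
  obtain ⟨j, _, hj⟩ := Finset.prod_eq_zero_iff.1 hNv
  refine ⟨v, b + β (z, v) j, hv.trans_le (min_le_left _ _), ?_,
    (R'.iff hx (R'.lt _ hx j).le).2 ⟨j, rfl⟩, hj⟩
  rw [add_sub_cancel_left]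
  have := R'.lt _ hx j
  linarith

end Pool.Agent.G4.K
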