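import Pool.Agent.G4.K.Defs

/-!
# G4 K Tay: `T ^ d` linear conditions under which a holomorphic function of `d` variables has a zero of order `T` at `0`

The Taylor coefficients of exponents `< T` in each variable: for `n < T` the value of `iteratedFDeriv ℂ n G 0` at `(z, …, z)` is a combination of the sums `tco α G` of its values at the families of basis vectors of type `α`, `∑ j, α j = n`.
-/

set_option autoImplicit false

open Topology Filter Metric

namespace Pool.Agent.G4.K

open Pool.Agent.AD (Vd)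

/-- the type of a sequence of indices -/
private def tty {n d : ℕ} (s : Fin n → Fin d) (j : Fin d) : ℕ := (Finset.univ.filter fun i => s i = j).card

private theorem tty_le {n d : ℕ} (s : Fin n → Fin d) (j : Fin d) : tty s j ≤ n := by
  have h := Finset.card_filter_le (Finset.univ : Finset (Fin n)) (fun i => s i = j)
  rw [Finset.card_univ, Fintype.card_fin] at h
  exact h

private theorem tty_sum {n d : ℕ} (s : Fin n → Fin d) : ∑ j, tty s j = n := by
  have h := Finset.card_eq_sum_card_fiberwise (s := (Finset.univ : Finset (Fin n))) (t := (Finset.univ : Finset (Fin d))) (f := s) (fun _ _ => Finset.mem_coe.2 (Finset.mem_univ _))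
  rw [Finset.card_univ, Fintype.card_fin] at h
  exact h.symm

/-- the value of the `n`-th derivative at a family of basis vectors -/
private noncomputable def tde {n d : ℕ} (s : Fin n → Fin d) (G : Vd d → ℂ) : ℂ :=
  iteratedFDeriv ℂ n G 0 fun i => (Pi.single (s i) (1 : ℂ) : Vd d)

/-- the sum of these values over the families of type `α` -/
private noncomputable def tco {d : ℕ} (n : ℕ) (α : Fin d → ℕ) (G : Vd d → ℂ) : ℂ :=
  ∑ s : Fin n → Fin d, if tty s = α then tde s G else 0

private theorem tde_add {n d : ℕ} (s : Fin n → Fin d) {G G' : Vd d → ℂ} (c : ℂ) (hG : AnalyticAt ℂ G 0) (hG' : AnalyticAt ℂ G' 0) :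
    tde s (fun z => G z + c * G' z) = tde s G + c * tde s G' := by
  have h1 : (fun z => G z + c * G' z) = G + c • G' := by
    funext z
    simp
  have h3 : ContDiffAt ℂ (n : ℕ) (c • G') (0 : Vd d) := hG'.contDiffAt.const_smul c
  rw [tde, h1, iteratedFDeriv_add_apply hG.contDiffAt h3, iteratedFDeriv_const_smul_apply hG'.contDiffAt]
  rfl

private theorem tco_add {n d : ℕ} (α : Fin d → ℕ) {G G' : Vd d → ℂ} (c : ℂ) (hG : AnalyticAt ℂ G 0) (hG' : AnalyticAt ℂ G' 0) :
    tco n α (fun z => G z + c * G' z) = tco n α G + c * tco n α G' := by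
  rw [tco, tco, tco, Finset.mul_sum, ← Finset.sum_add_distrib]
  refine Finset.sum_congr rfl fun s _ => ?_
  by_cases h : tty s = α
  · rw [if_pos h, if_pos h, if_pos h, tde_add s c hG hG']
  · rw [if_neg h, if_neg h, if_neg h]
    simp

private theorem tco_congr {n d : ℕ} (α : Fin d → ℕ) {G G' : Vd d → ℂ} (h : G =ᶠ[𝓝 0] G') : tco n α G = tco n α G' := by
  rw [tco, tco]
  refine Finset.sum_congr rfl fun s _ => ?_
  rw [tde, tde, (h.iteratedFDeriv ℂ n).eq_of_nhds]

private theorem tit {n d T : ℕ} (hn : n < T) {G : Vd d → ℂ} (h : ∀ α : Fin d → Fin T, tco (∑ j, (α j : ℕ)) (fun j => (α j : ℕ)) G = 0) (z : Vd d) :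
    (iteratedFDeriv ℂ n G 0 fun _ => z) = 0 := by
  classical
  have h1 : (iteratedFDeriv ℂ n G 0 fun _ => z) = ∑ s : Fin n → Fin d, (∏ i, z (s i)) * tde s G := by
    have h2 : (fun _ : Fin n => z) = fun _ : Fin n => ∑ j, z j • (Pi.single j (1 : ℂ) : Vd d) := by
      funext _
      exact pi_eq_sum_univ' z
    rw [h2, ContinuousMultilinearMap.map_sum]
    refine Finset.sum_congr rfl fun s _ => ?_
    rw [ContinuousMultilinearMap.map_smul_univ]
    rfl
  rw [h1]
  have h3 : ∀ s : Fin n → Fin d, ∏ i, z (s i) = ∏ j, z j ^ tty s j := by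
    intro s
    rw [← Finset.prod_fiberwise (Finset.univ : Finset (Fin n)) s (fun i => z (s i))]
    refine Finset.prod_congr rfl fun j _ => ?_
    rw [tty, ← Finset.prod_const]
    refine Finset.prod_congr rfl fun i hi => ?_
    rw [(Finset.mem_filter.1 hi).2]
  have h4 : ∑ s : Fin n → Fin d, (∏ i, z (s i)) * tde s G =
      ∑ α ∈ (Finset.univ : Finset (Fin n → Fin d)).image tty, (∏ j, z j ^ α j) * tco n α G := by
    rw [← Finset.sum_fiberwise_of_maps_to (s := (Finset.univ : Finset (Fin n → Fin d))) (t := (Finset.univ : Finset (Fin n → Fin d)).image tty) (g := tty)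
      (fun s hs => Finset.mem_image_of_mem tty hs)]
    refine Finset.sum_congr rfl fun α _ => ?_
    rw [tco, Finset.mul_sum, Finset.sum_filter]
    refine Finset.sum_congr rfl fun s _ => ?_
    by_cases hs : tty s = α
    · rw [if_pos hs, if_pos hs, h3, hs]
    · rw [if_neg hs, if_neg hs, mul_zero]
  rw [h4]
  refine Finset.sum_eq_zero fun α hα => ?_
  obtain ⟨s, _, rfl⟩ := Finset.mem_image.1 hα
  have h5 := h fun j => ⟨tty s j, (tty_le s j).trans_lt hn⟩
  have h6 : (∑ j, ((⟨tty s j, (tty_le s j).trans_lt hn⟩ : Fin T) : ℕ)) = n := tty_sum s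
  rw [h6] at h5
  have h7 : tco n (tty s) G = 0 := h5
  rw [h7, mul_zero]

theorem tay (d T : ℕ) : ∃ Φ : (Fin d → Fin T) → (Vd d → ℂ) → ℂ,
    (∀ i (G G' : Vd d → ℂ) (c : ℂ), AnalyticAt ℂ G 0 → AnalyticAt ℂ G' 0 → Φ i (fun z => G z + c * G' z) = Φ i G + c * Φ i G') ∧
    (∀ i (G G' : Vd d → ℂ), G =ᶠ[𝓝 0] G' → Φ i G = Φ i G') ∧
    ∀ G : Vd d → ℂ, AnalyticAt ℂ G 0 → (∀ i, Φ i G = 0) → ∃ C : ℝ, 0 ≤ C ∧ ∀ᶠ z in 𝓝 (0 : Vd d), ‖G z‖ ≤ C * ‖z‖ ^ T := by
  refine ⟨fun α G => tco (∑ j, (α j : ℕ)) (fun j => (α j : ℕ)) G, fun α G G' c hG hG' => tco_add _ c hG hG',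
    fun α G G' h => tco_congr _ h, fun G hG h => ?_⟩
  obtain ⟨p, r, hp⟩ := hG
  have h1 : ∀ z : Vd d, p.partialSum T z = 0 := by
    intro z
    rw [FormalMultilinearSeries.partialSum]
    refine Finset.sum_eq_zero fun n hn => ?_
    have h2 := hp.factorial_smul z n
    rw [tit (Finset.mem_range.1 hn) h z] at h2
    rw [nsmul_eq_mul] at h2
    exact (mul_eq_zero.1 h2).resolve_left (Nat.cast_ne_zero.2 (Nat.factorial_ne_zero n))
  have h3 := (hp.hasFPowerSeriesAt).isBigO_sub_partialSum_pow T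
  obtain ⟨C, hC, h4⟩ := h3.exists_nonneg
  refine ⟨C, hC, ?_⟩
  filter_upwards [h4.bound] with z hz
  rw [h1 z, sub_zero, zero_add, norm_pow, norm_norm] at hz
  exact hz

end Pool.Agent.G4.K
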