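import Pool.Agent.G4.K.Dv
import Pool.Agent.G4.K.Cb
import Pool.Agent.G4.K.Tay
import Pool.Agent.G4.K.Hz

/-!
# G4 K Sl: the Schwarz property in adapted coordinates

`ι = Fin n₁ × Fin n₂`, `pt z (i, j) = ((z, α z i), β (z, α z i) j)`.  `A²`, `A¹` from `RSys.div` for `R2`, `R1`; `b i j G z = A¹ i (A² j G) z` is analytic on `ball 0 δ` and linear in `G`, and `G (pt z (i, j)) = ∑ i' j', b i' j' G z (α z i) ^ i' (β … j) ^ j'`.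
Conditions: `tay` for the `b i j G`.  Then `‖G (pt z ι)‖ ≤ C ‖z‖ ^ T` near `0`, and `cf_bd` with `A z ι = ρ (pt z ι)`, `g z ι = G (pt z ι)` (`hP`: `norm_an` for `R2` and `F = ρ + s (t - G)`, then for `R1`; `Fintype.prod_prod_type`) gives the bound at the points
over `z` with `c z ≠ 0` (`RSys.iff` for `R2`, `R1`: such a point is a `pt z ι`).  The other points are limits of such points: the set `c ≠ 0` is dense in the ball (identity theorem), and `opn` (`h3`: the zeros of `σ ((z, v), ·)` are the `β (z, v) j`; `h4`: the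
zeros of the norm of `ρ` on `(z, ·)` are the `α z i`).
-/

set_option autoImplicit false

open Topology Filter Metric

namespace Pool.Agent.G4.K

open Pool.Agent.AD (Vd)

private theorem sl_ne {ι : Type} [Finite ι] (f : ι → ℂ) (b : ℂ) : ∀ᶠ w in 𝓝[≠] b, ∀ i, w ≠ f i := by
  have h : {x : ℂ | x ∈ Set.range f ∧ x ≠ b}.Finite := (Set.finite_range f).subset (fun x hx => hx.1)
  have h1 : {x : ℂ | x ∈ Set.range f ∧ x ≠ b}ᶜ ∈ 𝓝 b := h.isClosed.isOpen_compl.mem_nhds (fun hx => hx.2 rfl)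
  filter_upwards [mem_nhdsWithin_of_mem_nhds h1, self_mem_nhdsWithin] with w hw hwb i hi
  exact hw ⟨⟨i, hi.symm⟩, hwb⟩

private theorem sl_nn (b : ℂ) {r : ℝ} (hb : ‖b‖ < r) : ∀ᶠ w in 𝓝[≠] b, ‖w‖ ≤ r := by
  have h : {w : ℂ | ‖w‖ < r} ∈ 𝓝 b := (isOpen_lt continuous_norm continuous_const).mem_nhds hb
  filter_upwards [mem_nhdsWithin_of_mem_nhds h] with w hw
  exact le_of_lt hw

theorem sw_lc {d : ℕ} {σ ρ : (Vd d × ℂ) × ℂ → ℂ} {δ r₁ r₂ : ℝ} {U : Set (Vd d × ℂ)} {n₁ n₂ : ℕ} {α : Vd d → Fin n₁ → ℂ} {β : Vd d × ℂ → Fin n₂ → ℂ} (H : Lc σ ρ δ r₁ r₂ U α β)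
    (T : ℕ) : ∃ Φ : Fin (n₁ * n₂) → (Fin d → Fin T) → ((Vd d × ℂ) × ℂ → ℂ) → ℂ,
      (∀ i j (G G' : (Vd d × ℂ) × ℂ → ℂ) (c : ℂ), (∀ z, AnalyticAt ℂ G z) → (∀ z, AnalyticAt ℂ G' z) → Φ i j (fun z => G z + c * G' z) = Φ i j G + c * Φ i j G') ∧
      ∀ (G : (Vd d × ℂ) × ℂ → ℂ) (S : ℝ), (∀ z, AnalyticAt ℂ G z) →
        (∀ p : (Vd d × ℂ) × ℂ, ‖p.1.1‖ < δ → ‖p.1.2‖ < r₁ → ‖p.2‖ < r₂ → σ p = 0 → ρ p = 0 → ‖G p‖ ≤ S) → (∀ i j, Φ i j G = 0) →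
        ∀ p : (Vd d × ℂ) × ℂ, ‖p.1.1‖ < δ / 2 → ‖p.1.2‖ < r₁ → ‖p.2‖ < r₂ → σ p = 0 → ρ p = 0 → ‖G p‖ ≤ S * (((n₁ * n₂ : ℕ) + 1) * 2 ^ (n₁ * n₂) * (1 / 2) ^ T) := by
  classical
  have hsub := H.sub
  obtain ⟨A2, A2an, A2lin, A2cong, A2val⟩ := H.R2.div
  obtain ⟨A1, A1an, A1lin, A1cong, A1val⟩ := H.R1.div
  obtain ⟨Ψ, Ψlin, Ψcong, Ψbd⟩ := tay d T
  have h0 : (0 : Vd d) ∈ ball (0 : Vd d) δ := mem_ball_self H.pos
  have hball : ball (0 : Vd d) δ ∈ 𝓝 (0 : Vd d) := isOpen_ball.mem_nhds h0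
  -- analyticity of the coefficients
  have hA2 : ∀ G : (Vd d × ℂ) × ℂ → ℂ, (∀ z, AnalyticAt ℂ G z) → ∀ j, ∀ x ∈ ball (0 : Vd d) δ, ∀ w : ℂ, ‖w‖ ≤ r₁ → AnalyticAt ℂ (A2 j G) (x, w) :=
    fun G hG j x hx w hw => A2an j G (fun _ _ _ _ => hG _) _ (hsub x hx w hw)
  have hbA : ∀ G : (Vd d × ℂ) × ℂ → ℂ, (∀ z, AnalyticAt ℂ G z) → ∀ i j, ∀ x ∈ ball (0 : Vd d) δ, AnalyticAt ℂ (A1 i (A2 j G)) x :=
    fun G hG i j x hx => A1an i _ (hA2 G hG j) x hx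
  have hblin : ∀ (G G' : (Vd d × ℂ) × ℂ → ℂ) (c : ℂ), (∀ z, AnalyticAt ℂ G z) → (∀ z, AnalyticAt ℂ G' z) → ∀ i j, ∀ x ∈ ball (0 : Vd d) δ,
      A1 i (A2 j (fun z => G z + c * G' z)) x = A1 i (A2 j G) x + c * A1 i (A2 j G') x := by
    intro G G' c hG hG' i j x hx
    rw [A1cong i (A2 j (fun z => G z + c * G' z)) (fun p => A2 j G p + c * A2 j G' p) x hx
      (fun w hw => A2lin j G G' c (fun _ _ _ _ => hG _) (fun _ _ _ _ => hG' _) (x, w) (hsub x hx w hw))]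
    exact A1lin i _ _ c (hA2 G hG j) (hA2 G' hG' j) x hx
  refine ⟨fun e k G => Ψ k (A1 (finProdFinEquiv.symm e).1 (A2 (finProdFinEquiv.symm e).2 G)), ?_, ?_⟩
  · intro e k G G' c hG hG'
    have h1 : A1 (finProdFinEquiv.symm e).1 (A2 (finProdFinEquiv.symm e).2 (fun z => G z + c * G' z)) =ᶠ[𝓝 0]
        fun z => A1 (finProdFinEquiv.symm e).1 (A2 (finProdFinEquiv.symm e).2 G) z + c * A1 (finProdFinEquiv.symm e).1 (A2 (finProdFinEquiv.symm e).2 G') z := by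
      filter_upwards [hball] with x hx
      exact hblin G G' c hG hG' _ _ x hx
    show Ψ k _ = Ψ k _ + c * Ψ k _
    rw [Ψcong k _ _ h1]
    exact Ψlin k _ _ c (hbA G hG _ _ 0 h0) (hbA G' hG' _ _ 0 h0)
  intro G S hG hGS hΦ
  -- the points over z
  have hpt : ∀ z ∈ ball (0 : Vd d) δ, ∀ i, (z, α z i) ∈ U := fun z hz i => hsub z hz _ (H.R1.lt z hz i).le
  -- the coefficients vanish to order T
  have hb : ∀ i j, ∃ C : ℝ, 0 ≤ C ∧ ∀ᶠ z in 𝓝 (0 : Vd d), ‖A1 i (A2 j G) z‖ ≤ C * ‖z‖ ^ T := by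
    intro i j
    refine Ψbd _ (hbA G hG i j 0 h0) (fun k => ?_)
    have := hΦ (finProdFinEquiv (i, j)) k
    simpa using this
  choose C hC0 hC using hb
  have hCe : ∀ᶠ z in 𝓝 (0 : Vd d), ∀ i j, ‖A1 i (A2 j G) z‖ ≤ C i j * ‖z‖ ^ T :=
    eventually_all.2 fun i => eventually_all.2 fun j => hC i j
  have hT : ∀ᶠ z in 𝓝 (0 : Vd d), ∀ ij : Fin n₁ × Fin n₂, ρ ((z, α z ij.1), β (z, α z ij.1) ij.2) = 0 →
      ‖G ((z, α z ij.1), β (z, α z ij.1) ij.2)‖ ≤ (∑ j : Fin n₂, ∑ i : Fin n₁, C i j * r₁ ^ (i : ℕ) * r₂ ^ (j : ℕ)) * ‖z‖ ^ T := by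
    filter_upwards [hCe, hball] with z hz hzb ij _
    have hU := hpt z hzb ij.1
    have e1 : G ((z, α z ij.1), β (z, α z ij.1) ij.2) = ∑ j, A2 j G (z, α z ij.1) * β (z, α z ij.1) ij.2 ^ (j : ℕ) :=
      A2val G (fun _ _ _ _ => hG _) _ hU ij.2
    have e2 : ∀ j, A2 j G (z, α z ij.1) = ∑ i, A1 i (A2 j G) z * α z ij.1 ^ (i : ℕ) :=
      fun j => A1val (A2 j G) (hA2 G hG j) z hzb ij.1
    rw [e1, Finset.sum_mul]
    refine (norm_sum_le _ _).trans (Finset.sum_le_sum fun j _ => ?_)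
    rw [e2 j, Finset.sum_mul, Finset.sum_mul]
    refine (norm_sum_le _ _).trans (Finset.sum_le_sum fun i _ => ?_)
    rw [norm_mul, norm_mul, norm_pow, norm_pow]
    have ha : ‖α z ij.1‖ ^ (i : ℕ) ≤ r₁ ^ (i : ℕ) := pow_le_pow_left₀ (norm_nonneg _) (H.R1.lt z hzb ij.1).le _
    have hbb : ‖β (z, α z ij.1) ij.2‖ ^ (j : ℕ) ≤ r₂ ^ (j : ℕ) := pow_le_pow_left₀ (norm_nonneg _) (H.R2.lt _ hU ij.2).le _
    have hr₁ := H.R1.pos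
    have hr₂ := H.R2.pos
    calc ‖A1 i (A2 j G) z‖ * ‖α z ij.1‖ ^ (i : ℕ) * ‖β (z, α z ij.1) ij.2‖ ^ (j : ℕ)
        ≤ (C i j * ‖z‖ ^ T) * r₁ ^ (i : ℕ) * r₂ ^ (j : ℕ) := by
          have h1 : 0 ≤ C i j * ‖z‖ ^ T := mul_nonneg (hC0 i j) (by positivity)
          gcongr
          exact hz i j
      _ = C i j * r₁ ^ (i : ℕ) * r₂ ^ (j : ℕ) * ‖z‖ ^ T := by ring
  have hP : ∀ s t : ℂ, ∀ x ∈ ball (0 : Vd d) δ, AnalyticAt ℂ (fun x => ∏ ij : Fin n₁ × Fin n₂,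
      (ρ ((x, α x ij.1), β (x, α x ij.1) ij.2) + s * (t - G ((x, α x ij.1), β (x, α x ij.1) ij.2)))) x := by
    intro s t x hx
    have hN : ∀ x ∈ U, AnalyticAt ℂ (fun x => ∏ j, (ρ (x, β x j) + s * (t - G (x, β x j)))) x :=
      H.R2.norm_an (F := fun p => ρ p + s * (t - G p)) (fun x hx w hw => (H.an x hx w hw).add (analyticAt_const.mul (analyticAt_const.sub (hG _))))
    have hM := H.R1.norm_an (F := fun y => ∏ j, (ρ (y, β y j) + s * (t - G (y, β y j)))) (fun z hz w hw => hN _ (hsub z hz w hw)) x hx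
    simpa only [Fintype.prod_prod_type] using hM
  have hS : ∀ x ∈ ball (0 : Vd d) δ, ∀ ij : Fin n₁ × Fin n₂, ρ ((x, α x ij.1), β (x, α x ij.1) ij.2) = 0 → ‖G ((x, α x ij.1), β (x, α x ij.1) ij.2)‖ ≤ S := by
    intro x hx ij h
    have hU := hpt x hx ij.1
    exact hGS _ (by simpa using hx) (H.R1.lt x hx ij.1) (H.R2.lt _ hU ij.2) ((H.R2.iff hU (H.R2.lt _ hU ij.2).le).2 ⟨ij.2, rfl⟩) h
  obtain ⟨c, hc1, ⟨x₁, hx₁, hcx₁⟩, hc3⟩ := cf_bd H.pos hP hS hT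
  -- dense open set
  have hfreq : ∀ z ∈ ball (0 : Vd d) δ, ∃ᶠ z' in 𝓝 z, c z' ≠ 0 := by
    intro z hz h
    refine hcx₁ ?_
    have hcon : AnalyticOnNhd ℂ c (ball (0 : Vd d) δ) := hc1
    have := hcon.eqOn_zero_of_preconnected_of_eventuallyEq_zero (convex_ball (0 : Vd d) δ).isPreconnected hz
      (by filter_upwards [h] with y hy; simpa using hy)
    exact this hx₁
  rintro ⟨⟨z₀, a⟩, b⟩ hz₀ ha hb hσ0 hρ0
  simp only at hz₀ ha hb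
  have hz₀δ : z₀ ∈ ball (0 : Vd d) δ := by
    have : δ / 2 < δ := half_lt_self H.pos
    simpa using hz₀.trans this
  have hU₀ : (z₀, a) ∈ U := hsub z₀ hz₀δ a ha.le
  have h3 : ∀ᶠ w in 𝓝[≠] b, σ ((z₀, a), w) ≠ 0 := by
    filter_upwards [sl_ne (β (z₀, a)) b, sl_nn b hb] with w h1 h2 h4
    obtain ⟨i, hi⟩ := (H.R2.iff hU₀ h2).1 h4
    exact h1 i hi
  have h4 : ∀ᶠ v in 𝓝[≠] a, ∀ w : ℂ, ‖w - b‖ < r₂ - ‖b‖ → σ ((z₀, v), w) = 0 → ρ ((z₀, v), w) ≠ 0 := by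
    filter_upwards [sl_ne (α z₀) a, sl_nn a ha] with v h1 h2 w hw h5 h6
    have hUv : (z₀, v) ∈ U := hsub z₀ hz₀δ v h2
    have hw' : ‖w‖ ≤ r₂ := by
      have : ‖w‖ ≤ ‖w - b‖ + ‖b‖ := by simpa using norm_add_le (w - b) b
      linarith
    obtain ⟨j, hj⟩ := (H.R2.iff hUv hw').1 h5
    have h7 : ∏ j, ρ ((z₀, v), β (z₀, v) j) = 0 := Finset.prod_eq_zero (Finset.mem_univ j) (by rw [← hj]; exact h6)
    obtain ⟨i, hi⟩ := (H.R1.iff hz₀δ h2).1 h7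
    exact h1 i hi
  by_contra hcon
  rw [not_le] at hcon
  have hM : (S * (((Fintype.card (Fin n₁ × Fin n₂) : ℕ) + 1) * 2 ^ Fintype.card (Fin n₁ × Fin n₂) * (1 / 2) ^ T) : ℝ)
      = S * (((n₁ * n₂ : ℕ) + 1) * 2 ^ (n₁ * n₂) * (1 / 2) ^ T) := by
    rw [Fintype.card_prod, Fintype.card_fin, Fintype.card_fin]
  have hopen : {p : (Vd d × ℂ) × ℂ | S * (((n₁ * n₂ : ℕ) + 1) * 2 ^ (n₁ * n₂) * (1 / 2) ^ T) < ‖G p‖ ∧ ‖p.1.1‖ < δ / 2 ∧ ‖p.1.2‖ < r₁ ∧ ‖p.2‖ < r₂} ∈ 𝓝 ((z₀, a), b) := by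
    have c1 : ContinuousAt (fun p => ‖G p‖) ((z₀, a), b) := (hG _).continuousAt.norm
    filter_upwards [c1.eventually (lt_mem_nhds hcon),
      (isOpen_lt (f := fun p : (Vd d × ℂ) × ℂ => ‖p.1.1‖) (by fun_prop) continuous_const).mem_nhds hz₀,
      (isOpen_lt (f := fun p : (Vd d × ℂ) × ℂ => ‖p.1.2‖) (by fun_prop) continuous_const).mem_nhds ha,
      (isOpen_lt (f := fun p : (Vd d × ℂ) × ℂ => ‖p.2‖) (by fun_prop) continuous_const).mem_nhds hb] with p h1 h2 h3 h4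
    exact ⟨h1, h2, h3, h4⟩
  obtain ⟨ε, hε, hεb⟩ := Metric.mem_nhds_iff.1 hopen
  have hop := opn (H.R2.an _ hU₀ b hb.le) (H.an _ hU₀ b hb.le) hσ0 hρ0 h3 (sub_pos.2 hb) h4 hε
  obtain ⟨z, hcz, ⟨v, w, hv, hw, hσ, hρ⟩, hzε⟩ := ((hfreq z₀ hz₀δ).and_eventually (hop.and (ball_mem_nhds z₀ hε))).exists
  have hmem : (((z, v), w) : (Vd d × ℂ) × ℂ) ∈ ball (((z₀, a), b) : (Vd d × ℂ) × ℂ) ε := by
    rw [mem_ball, Prod.dist_eq, Prod.dist_eq]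
    refine max_lt (max_lt hzε ?_) ?_
    · simpa [dist_eq_norm] using hv
    · simpa [dist_eq_norm] using hw
  obtain ⟨k1, k2, k3, k4⟩ := hεb hmem
  simp only at k1 k2 k3 k4
  have hzδ2 : z ∈ ball (0 : Vd d) (δ / 2) := by simpa using k2
  have hzδ : z ∈ ball (0 : Vd d) δ := ball_subset_ball (half_lt_self H.pos).le hzδ2
  have hUz : (z, v) ∈ U := hsub z hzδ v k3.le
  obtain ⟨j, hj⟩ := (H.R2.iff hUz k4.le).1 hσ
  have h7 : ∏ j, ρ ((z, v), β (z, v) j) = 0 := Finset.prod_eq_zero (Finset.mem_univ j) (by rw [← hj]; exact hρ)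
  obtain ⟨i, hi⟩ := (H.R1.iff hzδ k3.le).1 h7
  have hfin := hc3 z hzδ2 hcz (i, j)
  simp only at hfin
  rw [← hi, ← hj] at hfin
  have hle := hfin hρ
  rw [hM] at hle
  exact absurd hle (not_le.2 k1)

end Pool.Agent.G4.K
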