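import Pool.Agent.G4.K.Co
import Pool.Agent.G4.K.Sl

/-!
# G4 K Sz: local complete intersections of codimension `2` have the Schwarz property
-/

set_option autoImplicit false

open Topology Filter Metric

namespace Pool.Agent.G4.K

open Pool.Agent.AD (Vd)

theorem sw_of_ci {k d : ℕ} (hk : d + 1 = k) {Z : Set (Vd (k + 1))} (hZ : CI Z) : Sw d Z := by
  intro y hy
  obtain ⟨σ, ρ, hσ, hρ, h1, h2, h3⟩ := hZ y hy
  obtain ⟨ε, hε, hε2⟩ := Metric.eventually_nhds_iff_ball.1 h2
  have hy0 := (hε2 y (mem_ball_self hε)).1 hy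
  obtain ⟨L, δ, r₁, r₂, U, n₁, n₂, α, β, H, hL⟩ := exists_lc hk hσ hρ hy0.1 hy0.2 h1 h3 (ε := min ε 1) (lt_min hε one_pos)
  have han : ∀ G : Vd (k + 1) → ℂ, (∀ z, AnalyticAt ℂ G z) → ∀ z, AnalyticAt ℂ (fun p : (Vd d × ℂ) × ℂ => G (y + L p)) z := by
    intro G hG z
    exact AnalyticAt.fun_comp (hG _) (analyticAt_const.add ((L : ((Vd d × ℂ) × ℂ) →L[ℂ] Vd (k + 1)).analyticAt z))
  refine ⟨n₁ * n₂, ((n₁ * n₂ : ℕ) + 1) * 2 ^ (n₁ * n₂), by positivity, {z | ‖(L.symm (z - y)).1.1‖ < δ / 2 ∧ ‖(L.symm (z - y)).1.2‖ < r₁ ∧ ‖(L.symm (z - y)).2‖ < r₂}, ?_, fun T => ?_⟩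
  · have hc : Continuous fun z : Vd (k + 1) => L.symm (z - y) := L.symm.continuous.comp (continuous_id.sub continuous_const)
    have ho : IsOpen {z : Vd (k + 1) | ‖(L.symm (z - y)).1.1‖ < δ / 2 ∧ ‖(L.symm (z - y)).1.2‖ < r₁ ∧ ‖(L.symm (z - y)).2‖ < r₂} :=
      (isOpen_lt (continuous_norm.comp (continuous_fst.comp (continuous_fst.comp hc))) continuous_const).inter
        ((isOpen_lt (continuous_norm.comp (continuous_snd.comp (continuous_fst.comp hc))) continuous_const).inter (isOpen_lt (continuous_norm.comp (continuous_snd.comp hc)) continuous_const))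
    refine ho.mem_nhds ?_
    have h4 := H.pos
    have h5 := H.R1.pos
    have h6 := H.R2.pos
    simp [h4, h5, h6]
  · obtain ⟨Φ, hΦ1, hΦ2⟩ := sw_lc H T
    refine ⟨fun i j G => Φ i j fun p => G (y + L p), fun i j G G' c hG hG' => hΦ1 i j _ _ c (han G hG) (han G' hG'), fun G S hG hS h0 z hz hzU => ?_⟩
    have hS0 : 0 ≤ S := (norm_nonneg _).trans (hS y hy (by simp))
    have key := hΦ2 (fun p => G (y + L p)) S (han G hG) (fun p hp1 hp2 hp3 hp4 hp5 => by
      have h4 := hL p hp1 hp2.le hp3.le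
      refine hS _ ((hε2 (y + L p) ?_).2 ⟨hp4, hp5⟩) ?_
      · rw [mem_ball, dist_eq_norm, add_sub_cancel_left]
        exact h4.trans_le (min_le_left _ _)
      · rw [add_sub_cancel_left]
        exact (h4.trans_le (min_le_right _ _)).le) h0 (L.symm (z - y)) hzU.1 hzU.2.1 hzU.2.2
    have h4 : y + L (L.symm (z - y)) = z := by
      rw [ContinuousLinearEquiv.apply_symm_apply]
      abel
    simp only [h4] at key
    have h5 : ‖z - y‖ < min ε 1 := by
      have h6 := hL (L.symm (z - y)) (hzU.1.trans (by linarith [H.pos])) hzU.2.1.le hzU.2.2.le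
      rwa [ContinuousLinearEquiv.apply_symm_apply] at h6
    have h6 := (hε2 z (by rw [mem_ball, dist_eq_norm]; exact h5.trans_le (min_le_left _ _))).1 hz
    refine (key h6.1 h6.2).trans (mul_le_mul_of_nonneg_left (mul_le_mul_of_nonneg_left ?_ (by positivity)) hS0)
    exact pow_le_pow_left₀ (by norm_num) (by norm_num) T

end Pool.Agent.G4.K
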