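import Pool.Agent.G4.H.Dim
import Pool.Agent.G4.H.Dir
import Pool.Agent.G4.H.Bas
import Pool.Agent.G4.K.Defs

/-!
# G4 K Van: theta functions which vanish to a high order along `Z` in the direction `a`, for sets `Z` with the Schwarz property

As `G4/H/Van`, with `Sw d Z` instead of the coverings by polydiscs.
-/

set_option autoImplicit false

open Topology Filter Metric

namespace Pool.Agent.G4.K

open Pool.Agent.AD (Vd)
open Pool.Agent.TG (Lat)
open Pool.Agent.G3 (wt)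
open Pool.Agent.G4.H

variable {k r : ℕ} {Γ : AddSubgroup (Vd (k + 1))} {W : Fin r → Vd (k + 1) →L[ℂ] ℂ} {e : Vd (k + 1) → Vd (k + 1) → ℂ}

private theorem wt_cont (W : Fin r → Vd (k + 1) →L[ℂ] ℂ) : Continuous (wt W) := by
  unfold wt
  exact continuous_finsetSum _ fun i _ => ((W i).continuous.norm).pow 2

private theorem wt_nn (W : Fin r → Vd (k + 1) →L[ℂ] ℂ) (y : Vd (k + 1)) : 0 ≤ wt W y := by
  unfold wt
  exact Finset.sum_nonneg fun i _ => by positivity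

private theorem lv_neg (b : RB k) (c : Fin (2 * (k + 1)) → ℤ) : lv b (-c) = -lv b c := by
  unfold lv
  rw [← Finset.sum_neg_distrib]
  refine Finset.sum_congr rfl fun i _ => ?_
  rw [Pi.neg_apply, Int.cast_neg, neg_smul]

/-- finitely many points -/
private theorem charts {Z : Set (Vd (k + 1))} (hZc : IsClosed Z) {d : ℕ} (hZ : Sw d Z) (R : ℝ) :
    ∃ (P : Finset (Vd (k + 1))) (s : P → ℕ) (U : P → Set (Vd (k + 1))) (C : ℝ), 0 < C ∧ (∀ p : P, (p : Vd (k + 1)) ∈ Z ∧ ‖(p : Vd (k + 1))‖ ≤ R) ∧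
      (∀ y ∈ Z, ‖y‖ ≤ R → ∃ p, y ∈ U p) ∧ ∀ T : ℕ, ∀ p : P, ∃ Φ : Fin (s p) → (Fin d → Fin T) → (Vd (k + 1) → ℂ) → ℂ,
    (∀ i j (G G' : Vd (k + 1) → ℂ) (c : ℂ), (∀ z, AnalyticAt ℂ G z) → (∀ z, AnalyticAt ℂ G' z) → Φ i j (fun z => G z + c * G' z) = Φ i j G + c * Φ i j G') ∧
    ∀ (G : Vd (k + 1) → ℂ) (S : ℝ), (∀ z, AnalyticAt ℂ G z) → (∀ z ∈ Z, ‖z - p‖ ≤ 1 → ‖G z‖ ≤ S) → (∀ i j, Φ i j G = 0) → ∀ z ∈ Z, z ∈ U p → ‖G z‖ ≤ S * (C * (3 / 4) ^ T) := by
  classical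
  have hK : IsCompact (Z ∩ closedBall 0 R) := (isCompact_closedBall 0 R).inter_left hZc
  choose s C hC U hU h using hZ
  obtain ⟨t, ht⟩ := hK.elim_nhds_subcover' (fun y hy => U y hy.1) (fun y hy => hU y hy.1)
  have hmem : ∀ p : (t.image Subtype.val : Finset (Vd (k + 1))), (p : Vd (k + 1)) ∈ Z ∧ ‖(p : Vd (k + 1))‖ ≤ R := by
    rintro ⟨p, hp⟩
    obtain ⟨q, hq, rfl⟩ := Finset.mem_image.1 hp
    exact ⟨q.2.1, mem_closedBall_zero_iff.1 q.2.2⟩
  refine ⟨t.image Subtype.val, fun p => s p (hmem p).1, fun p => U p (hmem p).1, 1 + ∑ p : (t.image Subtype.val : Finset (Vd (k + 1))), C p (hmem p).1, ?_, hmem, ?_, ?_⟩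
  · have := Finset.sum_nonneg (s := Finset.univ) (f := fun p : (t.image Subtype.val : Finset (Vd (k + 1))) => C p (hmem p).1) fun p _ => (hC p (hmem p).1).le
    linarith
  · intro y hy hyR
    obtain ⟨x, hx, hxy⟩ := Set.mem_iUnion₂.1 (ht ⟨hy, mem_closedBall_zero_iff.2 hyR⟩)
    exact ⟨⟨x, Finset.mem_image_of_mem _ hx⟩, hxy⟩
  · intro T p
    obtain ⟨Φ, h1, h2⟩ := h p (hmem p).1 T
    refine ⟨Φ, h1, fun G S hG hS hΦ z hz hzU => ?_⟩
    have hS0 : 0 ≤ S := (norm_nonneg _).trans (hS p (hmem p).1 (by simp))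
    have h3 : C p (hmem p).1 ≤ 1 + ∑ p : (t.image Subtype.val : Finset (Vd (k + 1))), C p (hmem p).1 := by
      have := Finset.single_le_sum (s := Finset.univ) (f := fun p : (t.image Subtype.val : Finset (Vd (k + 1))) => C p (hmem p).1) (fun p _ => (hC p (hmem p).1).le) (Finset.mem_univ p)
      linarith
    exact (h2 G S hG hS hΦ z hz hzU).trans (mul_le_mul_of_nonneg_left (mul_le_mul_of_nonneg_right h3 (by positivity)) hS0)

private theorem wt_bd (W : Fin r → Vd (k + 1) →L[ℂ] ℂ) (R : ℝ) : ∃ w : ℝ, 0 ≤ w ∧ ∀ z : Vd (k + 1), ‖z‖ ≤ R → wt W z ≤ w := by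
  obtain ⟨C, hC⟩ := (isCompact_closedBall (0 : Vd (k + 1)) R).exists_bound_of_continuousOn (wt_cont W).continuousOn
  refine ⟨|C|, abs_nonneg _, fun z hz => ?_⟩
  exact (Real.le_norm_self _).trans ((hC z (mem_closedBall_zero_iff.2 hz)).trans (le_abs_self _))

theorem van_sw (T : ThF Γ W e) {b : RB k} (hb : ∀ i, b i ∈ Γ) {Z : Set (Vd (k + 1))} (hZc : IsClosed Z) (hZi : ∀ y ∈ Z, ∀ l ∈ Γ, y + l ∈ Z) {d : ℕ} (hd : d + 1 = k) (hZ : Sw d Z) (a : Vd (k + 1)) :
    ∃ K A : ℕ, 1 ≤ K ∧ 1 ≤ A ∧ ∀ m l : ℕ, 1 ≤ m → l * A < m ^ 4 → ∃ f : Vd (k + 1) → ℂ, ThM b e (K * m ^ 2) f ∧ (∃ y, f y ≠ 0) ∧ ∀ j < l, ∀ y ∈ Z, (dir a)^[j] f y = 0 := by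
  classical
  obtain ⟨K, hK1, hK⟩ := theta_ex T hb
  obtain ⟨R, hR0, hR⟩ := lv_red b
  obtain ⟨P, s, U, C, hC0, hP, hU, hC⟩ := charts hZc hZ R
  obtain ⟨w, hw0, hw⟩ := wt_bd W (R + 1)
  obtain ⟨C', hC'⟩ : ∃ n : ℕ, Real.exp (K * w) * (3 / 4 : ℝ) ^ n ≤ 1 / (2 * (C + 1)) := by
    obtain ⟨n, hn⟩ := exists_pow_lt_of_lt_one (show 0 < 1 / (2 * (C + 1)) / Real.exp (K * w) by positivity) (show (3 / 4 : ℝ) < 1 by norm_num)
    refine ⟨n, ?_⟩
    rw [lt_div_iff₀ (Real.exp_pos _)] at hn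
    linarith
  refine ⟨K, max 1 (Fintype.card (Σ p : P, Fin (s p)) * C' ^ d), hK1, le_max_left _ _, fun m l hm hl => ?_⟩
  choose Φ hΦ1 hΦ2 using hC (C' * m ^ 2)
  obtain ⟨f, hf, hf0, hfJ⟩ := hK m hm (Fin l × (Σ p : P, Fin (s p)) × (Fin d → Fin (C' * m ^ 2))) (fun p f => Φ p.2.1.1 p.2.1.2 p.2.2 ((dir a)^[p.1] f))
    (by
      intro p f g c hf hg
      rw [dir_lin hf hg c p.1]
      exact hΦ1 p.2.1.1 p.2.1.2 p.2.2 _ _ c (dir_an hf p.1) (dir_an hg p.1))
    (by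
      have e1 : Fintype.card (Fin l × (Σ p : P, Fin (s p)) × (Fin d → Fin (C' * m ^ 2))) = l * (Fintype.card (Σ p : P, Fin (s p)) * C' ^ d) * (m ^ 2) ^ d := by
        rw [Fintype.card_prod, Fintype.card_prod, Fintype.card_fin, Fintype.card_fun, Fintype.card_fin, Fintype.card_fin, mul_pow]
        ring
      have e2 : m ^ (2 * (k + 1)) = m ^ 4 * (m ^ 2) ^ d := by
        subst hd
        ring
      rw [e1, e2]
      exact Nat.mul_lt_mul_of_pos_right (lt_of_le_of_lt (Nat.mul_le_mul_left l (le_max_right _ _)) hl) (by positivity))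
  refine ⟨f, hf, hf0, ?_⟩
  set M : ℕ := K * m ^ 2 with hMdef
  -- the weight
  have hq : Real.exp (M * w) * (C * (3 / 4 : ℝ) ^ (C' * m ^ 2)) ≤ 1 / 2 := by
    have h1 : Real.exp (M * w) * (3 / 4 : ℝ) ^ (C' * m ^ 2) = (Real.exp (K * w) * (3 / 4 : ℝ) ^ C') ^ (m ^ 2) := by
      rw [mul_pow, ← Real.exp_nat_mul, ← pow_mul, hMdef]
      congr 2
      push_cast
      ring
    have h2 : (Real.exp (K * w) * (3 / 4 : ℝ) ^ C') ^ (m ^ 2) ≤ 1 / (2 * (C + 1)) := by
      have h3 : Real.exp (K * w) * (3 / 4 : ℝ) ^ C' ≤ 1 := hC'.trans (by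
        rw [div_le_one (by positivity)]
        linarith)
      calc (Real.exp (K * w) * (3 / 4 : ℝ) ^ C') ^ (m ^ 2) ≤ Real.exp (K * w) * (3 / 4 : ℝ) ^ C' :=
            pow_le_of_le_one (by positivity) h3 (by positivity)
        _ ≤ _ := hC'
    calc Real.exp (M * w) * (C * (3 / 4 : ℝ) ^ (C' * m ^ 2)) = C * (Real.exp (M * w) * (3 / 4 : ℝ) ^ (C' * m ^ 2)) := by ring
      _ ≤ C * (1 / (2 * (C + 1))) := by
          rw [h1]
          exact mul_le_mul_of_nonneg_left h2 hC0.le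
      _ ≤ 1 / 2 := by
          rw [mul_one_div, div_le_div_iff₀ (by positivity) (by positivity)]
          linarith
  intro j
  induction j using Nat.strong_induction_on with
  | _ j ih =>
    intro hj
    have hD : ∀ y, AnalyticAt ℂ ((dir a)^[j] f) y := dir_an hf.an j
    -- the norm is invariant
    have hinv : ∀ y ∈ Z, ∀ c : Fin (2 * (k + 1)) → ℤ, y + lv b c ∈ Z ∧
        ‖(dir a)^[j] f (y + lv b c)‖ * Real.exp (-(M * wt W (y + lv b c))) = ‖(dir a)^[j] f y‖ * Real.exp (-(M * wt W y)) := by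
      intro y hy c
      have hc := lv_mem hb c
      have hyc : y + lv b c ∈ Z := hZi y hy _ hc
      refine ⟨hyc, ?_⟩
      have h1 := dir_iter_per (a := a) (h := fun y => e (lv b c) y ^ M) (fun y => (T.an _ hc y).pow M) hf.an (v := lv b c) (hf.per c) (j := j) (y := y)
        (fun i hi => ih i hi (hi.trans hj) _ hyc)
      rw [← h1, norm_mul, norm_pow, T.nrm _ hc y, ← Real.exp_nat_mul]
      rw [mul_comm (Real.exp _) ‖_‖, mul_assoc, ← Real.exp_add]
      congr 2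
      ring
    -- the maximum
    by_cases hne : (Z ∩ closedBall (0 : Vd (k + 1)) R).Nonempty
    swap
    · intro y hy
      exfalso
      obtain ⟨c, hc⟩ := hR y
      refine hne ⟨y + lv b (-c), (hinv y hy (-c)).1, ?_⟩
      rw [mem_closedBall_zero_iff, lv_neg, ← sub_eq_add_neg]
      exact hc
    have hcont : Continuous (fun y => ‖(dir a)^[j] f y‖ * Real.exp (-(M * wt W y))) := by
      have h1 : Continuous ((dir a)^[j] f) := continuous_iff_continuousAt.2 fun y => (hD y).continuousAt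
      have h2 := wt_cont W
      fun_prop
    obtain ⟨y₁, hy₁, hmax⟩ := ((isCompact_closedBall (0 : Vd (k + 1)) R).inter_left hZc).exists_isMaxOn hne hcont.continuousOn
    set S : ℝ := ‖(dir a)^[j] f y₁‖ * Real.exp (-(M * wt W y₁)) with hS
    have hSall : ∀ y ∈ Z, ‖(dir a)^[j] f y‖ * Real.exp (-(M * wt W y)) ≤ S := by
      intro y hy
      obtain ⟨c, hc⟩ := hR y
      obtain ⟨h1, h2⟩ := hinv y hy (-c)
      rw [← h2]
      refine hmax ⟨h1, ?_⟩
      rw [mem_closedBall_zero_iff, lv_neg, ← sub_eq_add_neg]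
      exact hc
    have hS0 : 0 ≤ S := by positivity
    obtain ⟨p, hp⟩ := hU y₁ hy₁.1 (mem_closedBall_zero_iff.1 hy₁.2)
    have h1 := hΦ2 p ((dir a)^[j] f) (S * Real.exp (M * w)) hD
      (by
        intro z hz hzp
        have h2 := hSall z hz
        have h3 : ‖(dir a)^[j] f z‖ = ‖(dir a)^[j] f z‖ * Real.exp (-(M * wt W z)) * Real.exp (M * wt W z) := by
          rw [mul_assoc, ← Real.exp_add, neg_add_cancel, Real.exp_zero, mul_one]
        rw [h3]
        refine mul_le_mul h2 ?_ (Real.exp_pos _).le hS0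
        refine Real.exp_le_exp.2 (mul_le_mul_of_nonneg_left (hw z ?_) (Nat.cast_nonneg _))
        have h4 := norm_add_le (z - p) (p : Vd (k + 1))
        rw [sub_add_cancel] at h4
        linarith [(hP p).2])
      (fun i' j' => hfJ ⟨⟨j, hj⟩, ⟨p, i'⟩, j'⟩) y₁ hy₁.1 hp
    have h2 : S ≤ S * (1 / 2) := by
      calc S ≤ ‖(dir a)^[j] f y₁‖ * 1 := by
            rw [hS]
            refine mul_le_mul_of_nonneg_left ?_ (norm_nonneg _)
            rw [Real.exp_le_one_iff]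
            have := mul_nonneg (Nat.cast_nonneg (α := ℝ) M) (wt_nn W y₁)
            linarith
        _ ≤ S * Real.exp (M * w) * (C * (3 / 4) ^ (C' * m ^ 2)) := by
            rw [mul_one]
            exact h1
        _ = S * (Real.exp (M * w) * (C * (3 / 4) ^ (C' * m ^ 2))) := by ring
        _ ≤ S * (1 / 2) := mul_le_mul_of_nonneg_left hq hS0
    have h3 : S = 0 := by linarith
    intro y hy
    have h4 := hSall y hy
    rw [h3] at h4
    have h5 : ‖(dir a)^[j] f y‖ ≤ 0 := by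
      by_contra hcon
      push Not at hcon
      have := mul_pos hcon (Real.exp_pos (-(M * wt W y)))
      linarith
    exact norm_le_zero_iff.1 h5

end Pool.Agent.G4.K
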