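import Pool.Agent.G4.K.Defs
import Pool.Agent.H22.HF.Fac

/-!
# G4 K Rs: existence of root systems

One variable: `f` analytic at the points of the closed disc, not `0` on the circle: `f w = ∏ (w - b i) * h w`, `h` analytic and not `0` on the closed disc (finitely many zeros; divide them out one after the other).
The number of the zeros of `σ (x, ·)` is `(2 π i)⁻¹ ∮ deriv (σ (x, ·)) w / σ (x, w)`, continuous in `x` near `x₀` (`H22.HF.analyticAt_circleIntegral`) and an integer, so constant on a small ball.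
-/

set_option autoImplicit false

open Topology Filter Metric

namespace Pool.Agent.G4.K

open Pool.Agent.AD (Vd)

variable {E : Type} [NormedAddCommGroup E] [NormedSpace ℂ E] [FiniteDimensional ℂ E]

omit [FiniteDimensional ℂ E] in
/-- the partial derivative with respect to the last variable -/
private theorem rs_deriv {σ : E × ℂ → ℂ} {x : E} {w : ℂ} (h : AnalyticAt ℂ σ (x, w)) : deriv (fun t : ℂ => σ (x, t)) w = fderiv ℂ σ (x, w) (0, 1) := by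
  have h1 : HasFDerivAt σ (fderiv ℂ σ (x, w)) (x, w) := h.differentiableAt.hasFDerivAt
  have h2 : HasDerivAt (fun t : ℂ => (x, t)) ((0 : E), (1 : ℂ)) w := (hasDerivAt_const w x).prodMk (hasDerivAt_id w)
  exact (h1.comp_hasDerivAt w h2).deriv

omit [FiniteDimensional ℂ E] in
/-- one parameter value: the factorisation, and the number of the factors -/
private theorem rs_one {σ : E × ℂ → ℂ} {x : E} {r : ℝ} (hr : 0 < r) (han : ∀ w : ℂ, ‖w‖ ≤ r → AnalyticAt ℂ σ (x, w)) (hne : ∀ w : ℂ, ‖w‖ = r → σ (x, w) ≠ 0) :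
    ∃ (n : ℕ) (b : Fin n → ℂ), (∀ i, ‖b i‖ < r) ∧
      (∃ h : ℂ → ℂ, (∀ w : ℂ, ‖w‖ ≤ r → AnalyticAt ℂ h w ∧ h w ≠ 0) ∧ ∀ w : ℂ, ‖w‖ ≤ r → σ (x, w) = (∏ i, (w - b i)) * h w) ∧
      (∮ t in C(0, r), fderiv ℂ σ (x, t) (0, 1) / σ (x, t)) = 2 * Real.pi * Complex.I * n := by
  have hφ : ∀ t ∈ closedBall (0 : ℂ) r, AnalyticAt ℂ (fun w : ℂ => σ (x, w)) t := fun t ht =>
    (han t (mem_closedBall_zero_iff.1 ht)).comp_of_eq (analyticAt_const.prod analyticAt_id) rfl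
  obtain ⟨n, b, h, hb, hh, hf⟩ := Pool.Agent.H22.HF.exists_fac hr hφ fun t ht => hne t (mem_sphere_zero_iff_norm.1 ht)
  refine ⟨n, b, hb, ⟨h, fun w hw => hh w (mem_closedBall_zero_iff.2 hw), fun w hw => (hf w (mem_closedBall_zero_iff.2 hw)).self_of_nhds⟩, ?_⟩
  have h1 := Pool.Agent.H22.HF.power_sum hr hb hh hf (H := fun _ => 1) fun _ _ => analyticAt_const
  have h2 : (∮ t in C(0, r), fderiv ℂ σ (x, t) (0, 1) / σ (x, t)) = ∮ t in C(0, r), (1 : ℂ) * deriv (fun w : ℂ => σ (x, w)) t / σ (x, t) := by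
    refine circleIntegral.integral_congr hr.le fun t ht => ?_
    rw [one_mul, rs_deriv (han t (mem_sphere_zero_iff_norm.1 ht).le)]
  rw [h2, h1]
  simp

theorem exists_rsys {σ : E × ℂ → ℂ} {x₀ : E} {r : ℝ} (hr : 0 < r) (han : ∀ w : ℂ, ‖w‖ ≤ r → AnalyticAt ℂ σ (x₀, w)) (hne : ∀ w : ℂ, ‖w‖ = r → σ (x₀, w) ≠ 0) :
    ∃ (δ : ℝ) (n : ℕ) (β : E → Fin n → ℂ), 0 < δ ∧ RSys (ball x₀ δ) r σ β := by
  classical
  obtain ⟨u₁, v₁, hu₁, _, hpu₁, htv₁, huv₁⟩ := generalized_tube_lemma (isCompact_singleton (x := x₀)) (isCompact_closedBall (0 : ℂ) r) (isOpen_analyticAt ℂ σ) (by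
    rintro ⟨p, t⟩ ⟨hp, ht⟩
    simp only [Set.mem_singleton_iff] at hp
    subst hp
    exact han t (mem_closedBall_zero_iff.1 ht))
  have hWo : IsOpen {q : E × ℂ | AnalyticAt ℂ σ q ∧ σ q ≠ 0} := by
    rw [isOpen_iff_mem_nhds]
    rintro q ⟨h1, h2⟩
    exact h1.eventually_analyticAt.and (h1.continuousAt.eventually_ne h2)
  obtain ⟨u₂, v₂, hu₂, _, hpu₂, htv₂, huv₂⟩ := generalized_tube_lemma (isCompact_singleton (x := x₀)) (isCompact_sphere (0 : ℂ) r) hWo (by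
    rintro ⟨p, t⟩ ⟨hp, ht⟩
    simp only [Set.mem_singleton_iff] at hp
    subst hp
    have ht' : ‖t‖ = r := mem_sphere_zero_iff_norm.1 ht
    exact ⟨han t ht'.le, hne t ht'⟩)
  have hA : ∀ x ∈ u₁, ∀ w : ℂ, ‖w‖ ≤ r → AnalyticAt ℂ σ (x, w) := fun x hx w hw => huv₁ ⟨hx, htv₁ (mem_closedBall_zero_iff.2 hw)⟩
  have hN : ∀ x ∈ u₂, ∀ w : ℂ, ‖w‖ = r → σ (x, w) ≠ 0 := fun x hx w hw => (huv₂ ⟨hx, htv₂ (mem_sphere_zero_iff_norm.2 hw)⟩).2
  obtain ⟨n, b₀, _, _, hn⟩ := rs_one (x := x₀) hr han hne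
  have hI : AnalyticAt ℂ (fun x : E => ∮ t in C(0, r), (fun q : E × ℂ => fderiv ℂ σ q (0, 1) / σ q) (x, t)) x₀ := by
    refine Pool.Agent.H22.HF.analyticAt_circleIntegral (E := E) (F := fun q : E × ℂ => fderiv ℂ σ q (0, 1) / σ q) hr fun t ht => ?_
    have ht' : ‖t‖ = r := mem_sphere_zero_iff_norm.1 ht
    have h1 : AnalyticAt ℂ (fun q : E × ℂ => fderiv ℂ σ q ((0 : E), (1 : ℂ))) (x₀, t) :=
      ((ContinuousLinearMap.apply ℂ ℂ ((0 : E), (1 : ℂ))).analyticAt _).comp (han t ht'.le).fderiv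
    exact h1.div (han t ht'.le) (hne t ht')
  have hpi : 0 < 2 * Real.pi := by positivity
  have hev : ∀ᶠ x in 𝓝 x₀, x ∈ u₁ ∧ x ∈ u₂ ∧ ‖(∮ t in C(0, r), fderiv ℂ σ (x, t) (0, 1) / σ (x, t)) - 2 * Real.pi * Complex.I * n‖ < 2 * Real.pi := by
    have h1 := hI.continuousAt
    rw [Metric.continuousAt_iff] at h1
    obtain ⟨ε, hε, h2⟩ := h1 (2 * Real.pi) hpi
    filter_upwards [hu₁.mem_nhds (hpu₁ rfl), hu₂.mem_nhds (hpu₂ rfl), ball_mem_nhds x₀ hε] with x e1 e2 e3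
    refine ⟨e1, e2, ?_⟩
    have h3 := h2 e3
    rw [dist_eq_norm] at h3
    simp only [hn] at h3
    exact h3
  obtain ⟨δ, hδ, hball⟩ := Metric.eventually_nhds_iff_ball.1 hev
  have hx : ∀ x ∈ ball x₀ δ, ∃ b : Fin n → ℂ, (∀ i, ‖b i‖ < r) ∧
      ∃ h : ℂ → ℂ, (∀ w : ℂ, ‖w‖ ≤ r → AnalyticAt ℂ h w ∧ h w ≠ 0) ∧ ∀ w : ℂ, ‖w‖ ≤ r → σ (x, w) = (∏ i, (w - b i)) * h w := by
    intro x hx
    obtain ⟨e1, e2, e3⟩ := hball x hx
    obtain ⟨m, b, f1, f2, f3⟩ := rs_one hr (hA x e1) (hN x e2)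
    have hmn : m = n := by
      rw [f3, ← mul_sub, norm_mul] at e3
      have h4 : ‖(2 * Real.pi * Complex.I : ℂ)‖ = 2 * Real.pi := by
        simp [abs_of_pos Real.pi_pos]
      have h5 : ‖(m : ℂ) - n‖ < 1 := by
        rw [h4] at e3
        by_contra h6
        nlinarith [not_lt.1 h6]
      have h6 : ((m : ℂ) - n) = (((m : ℤ) - (n : ℤ) : ℤ) : ℂ) := by push_cast; ring
      rw [h6, Complex.norm_intCast] at h5
      have h7 : |((m : ℤ) - (n : ℤ) : ℤ)| < 1 := by exact_mod_cast h5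
      rw [Int.abs_lt_one_iff] at h7
      omega
    subst hmn
    exact ⟨b, f1, f2⟩
  choose! β hβ using hx
  exact ⟨δ, n, β, hδ, isOpen_ball, hr, fun x hx => hA x (hball x hx).1, fun x hx => hN x (hball x hx).2.1, fun x hx => (hβ x hx).1, fun x hx => (hβ x hx).2⟩

end Pool.Agent.G4.K
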