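import Pool.Agent.G4.K.Main
import Pool.Agent.G4.K.Ci
import Pool.Agent.G4.H.Sml

/-!
# G4 K Sml: few bad points, from local equations of `D` and `B`
-/

set_option autoImplicit false

open Topology Filter Metric

namespace Pool.Agent.G4.K

open Pool.Agent.H36.BP (EN)
open Pool.Agent.AD (Vd)
open Pool.Agent.TG (Lat VForm TransAt IsCoord)
open Pool.Agent.G3.A (Frm Ba)

variable {N k : ℕ} {X : Set (EN N)} {Λ Γ : AddSubgroup (Vd (k + 1))} {u : EN N → Vd (k + 1)} {D B : Set (Vd (k + 1))} {J r : ℕ}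
  {W : Fin r → Vd (k + 1) →L[ℂ] ℂ} {α : Fin J → VForm X Λ u} {a : Vd (k + 1)}

theorem few_leq (hΛ : Lat Λ) (hs : Simp Λ) (hF : Frm X Λ u D Γ W α) (hx : ∃ y ∉ D, ∃ x ∈ X, u x - y ∈ Λ) (hDc : IsClosed D) (hDi : ∀ y ∈ D, ∀ l ∈ Λ, y + l ∈ D)
    (hBi : ∀ y ∈ B, ∀ l ∈ Λ, y + l ∈ B) (hL : LDi D) (hE : Leq D B) (hco : ∀ y ∈ D, y ∉ B → ∃ κ : Vd (k + 1) → Vd (k + 1), IsCoord D κ y) (ha : a ≠ 0) : Few (Ba D B a) a :=
  few_ci hΛ hs hF hx (ba_cl hDc hE hco ha) (H.ba_inv hDi hBi) (ci_ba hL hE hco ha) ha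

theorem Leq.inter (hE : Leq D B) : Leq D (B ∩ D) := by
  refine ⟨?_, fun y hy => ?_⟩
  · rw [Set.diff_inter_self_eq_diff]
    exact hE.1
  · obtain ⟨s, t, hs, ht, h⟩ := hE.2 y hy
    refine ⟨s, t, hs, ht, h.mono fun z hz => ⟨hz.1, ?_, fun h1 h2 => hz.2.2 h1 fun h3 => h2 ⟨h3, h1⟩⟩⟩
    rw [Set.mem_inter_iff, hz.2.1, hz.1]
    tauto

theorem Leq.closed (hD : IsClosed D) (hE : Leq D B) : IsClosed (B ∩ D) := by
  rw [← isOpen_compl_iff, isOpen_iff_mem_nhds]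
  intro y hy
  by_cases hyD : y ∈ D
  · obtain ⟨s, t, hs, ht, h⟩ := hE.2 y hyD
    have h1 : t y ≠ 0 := fun h0 => hy ⟨h.self_of_nhds.2.1.2 ⟨h.self_of_nhds.1.1 hyD, h0⟩, hyD⟩
    filter_upwards [h, ht.continuousAt.eventually_ne h1] with z hz hz1 hz2
    exact hz1 (hz.2.1.1 hz2.1).2
  · filter_upwards [hD.isOpen_compl.mem_nhds hyD] with z hz hz2
    exact hz hz2.2

end Pool.Agent.G4.K
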